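import Pool.Agent.helper26.SE.Cover

set_option autoImplicit false

/-!
# Assembly of the answer to Q1 of MP_3fe32a from the steps

`R k m` is the predicate: `m` is realized in `k` variables (for forms of degree `q + 1`).  The theorems of this file
deduce `R k m` for all `1 ≤ m ≤ D q k = 1 + q + ⋯ + q^(k-1)` from the steps:
* `hL` (lifting `k → k + 1`), `hU` (the class `C` states: the upper half), `hE` (the top: `(q+1) q^κ + m`);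
* `q ≥ 6`: `hS` (the step `S(n,E)`);
* `q = 4, 5`: `hS` and the windows `[q+1, q+2]`, `[q+2, q+3]` (units `q^κ`, `κ ≥ 1`), for `q = 5` also the shift `12`;
* `q = 3`: windows.
-/

namespace SE

/-- `D q k = 1 + q + ⋯ + q^(k-1)` -/
def D (q k : ℕ) : ℕ := ∑ i ∈ Finset.range k, q ^ i

lemma D_succ (q k : ℕ) : D q (k + 1) = D q k + q ^ k := Finset.sum_range_succ _ _

lemma D_one (q : ℕ) : D q 1 = 1 := by simp [D]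

lemma D_two (q : ℕ) : D q 2 = q + 1 := by simp [D, Finset.sum_range_succ]; ring

/-- `(q - 1) D q k + 1 = q ^ k` -/
lemma D_mul (p k : ℕ) : p * D (p + 1) k + 1 = (p + 1) ^ k := by
  induction k with
  | zero => simp [D]
  | succ k ih =>
    rw [D_succ, mul_add, pow_succ]
    linarith [ih]

/-- the skeleton: everything follows from the middle window -/
theorem skeleton {q : ℕ} (R : ℕ → ℕ → Prop) (h1 : R 1 1)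
    (h2 : ∀ m, 1 ≤ m → m ≤ q + 1 → R 2 m)
    (hL : ∀ k m, 1 ≤ k → R k m → R (k + 1) m)
    (hU : ∀ κ m, (q + 2) * q ^ κ ≤ 2 * m → m ≤ (q + 1) * q ^ κ → R (κ + 2) m)
    (hE : ∀ κ m, 1 ≤ κ → 1 ≤ m → m ≤ D q κ → R (κ + 2) ((q + 1) * q ^ κ + m))
    (hM : ∀ κ m, (∀ k m, k < κ + 3 → 1 ≤ k → 1 ≤ m → m ≤ D q k → R k m) →
      D q (κ + 2) < m → 2 * m < (q + 2) * q ^ (κ + 1) → R (κ + 3) m) :
    ∀ k m, 1 ≤ k → 1 ≤ m → m ≤ D q k → R k m := by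
  intro k
  induction k using Nat.strong_induction_on with
  | _ k ih =>
    intro m hk hm hmD
    rcases Nat.lt_or_ge k 3 with hk3 | hk3
    · have h12 : k = 1 ∨ k = 2 := by omega
      rcases h12 with rfl | rfl
      · rw [D_one] at hmD
        have : m = 1 := by omega
        rw [this]
        exact h1
      · rw [D_two] at hmD
        exact h2 m hm hmD
    obtain ⟨κ, rfl⟩ : ∃ κ, k = κ + 3 := ⟨k - 3, by omega⟩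
    by_cases ha : m ≤ D q (κ + 2)
    · exact hL (κ + 2) m (by omega) (ih (κ + 2) (by omega) m (by omega) hm ha)
    by_cases hb : 2 * m < (q + 2) * q ^ (κ + 1)
    · exact hM κ m (fun k m hk h h' h'' => ih k hk m h h' h'') (by omega) hb
    by_cases hc : m ≤ (q + 1) * q ^ (κ + 1)
    · exact hU (κ + 1) m (by omega) hc
    have hD : D q (κ + 3) = D q (κ + 1) + (q + 1) * q ^ (κ + 1) := by
      rw [D_succ, D_succ]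
      ring
    obtain ⟨m', rfl⟩ : ∃ m', m = (q + 1) * q ^ (κ + 1) + m' := ⟨m - (q + 1) * q ^ (κ + 1), by omega⟩
    exact hE (κ + 1) m' (by omega) (by omega) (by omega)

lemma D_ge (q κ : ℕ) : (q + 1) * q ^ κ ≤ D q (κ + 2) := by
  rw [D_succ, D_succ]
  have : (q + 1) * q ^ κ = q ^ κ + q ^ (κ + 1) := by ring
  omega

/-- the middle window for `q ≥ 6` -/
theorem window_big {q : ℕ} (hq : 6 ≤ q) (R : ℕ → ℕ → Prop)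
    (hL : ∀ k m, 1 ≤ k → R k m → R (k + 1) m)
    (hU : ∀ κ m, (q + 2) * q ^ κ ≤ 2 * m → m ≤ (q + 1) * q ^ κ → R (κ + 2) m)
    (hS : ∀ κ n E m, Adm q n E → (q + 2) * q ^ κ ≤ 2 * m → m ≤ (q + 1) * q ^ κ →
      R (κ + 3) (m + n * E * q ^ κ)) (κ m : ℕ) (h1 : D q (κ + 2) < m)
    (h2 : 2 * m < (q + 2) * q ^ (κ + 1)) : R (κ + 3) m := by
  have h3 := D_ge q κ
  have h4 : (q + 2) * q ^ κ ≤ 2 * ((q + 1) * q ^ κ) := by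
    have e : 2 * ((q + 1) * q ^ κ) = (2 * q + 2) * q ^ κ := by ring
    rw [e]
    exact Nat.mul_le_mul_right _ (by omega)
  have h5 : (q + 2) * q ^ (κ + 1) = (q ^ 2 + 2 * q) * q ^ κ := by ring
  obtain ⟨m', ha, hb, hc⟩ := cover (q := q) (κ := κ) (m := m) hq (by omega) (by omega)
  rcases hc with rfl | ⟨n, E, hA, rfl⟩
  · exact hL _ _ (by omega) (hU κ m ha hb)
  · exact hS κ n E m' hA ha hb

/-- the complete answer for `q ≥ 6` -/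
theorem all_big {q : ℕ} (hq : 6 ≤ q) (R : ℕ → ℕ → Prop) (h1 : R 1 1)
    (h2 : ∀ m, 1 ≤ m → m ≤ q + 1 → R 2 m)
    (hL : ∀ k m, 1 ≤ k → R k m → R (k + 1) m)
    (hU : ∀ κ m, (q + 2) * q ^ κ ≤ 2 * m → m ≤ (q + 1) * q ^ κ → R (κ + 2) m)
    (hE : ∀ κ m, 1 ≤ κ → 1 ≤ m → m ≤ D q κ → R (κ + 2) ((q + 1) * q ^ κ + m))
    (hS : ∀ κ n E m, Adm q n E → (q + 2) * q ^ κ ≤ 2 * m → m ≤ (q + 1) * q ^ κ →
      R (κ + 3) (m + n * E * q ^ κ)) :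
    ∀ k m, 1 ≤ k → 1 ≤ m → m ≤ D q k → R k m :=
  skeleton R h1 h2 hL hU hE fun κ m _ => window_big hq R hL hU hS κ m

/-- the shift `n * E` applied to a given value -/
lemma useS {q : ℕ} {R : ℕ → ℕ → Prop}
    (hS : ∀ κ n E m, Adm q n E → (q + 2) * q ^ κ ≤ 2 * m → m ≤ (q + 1) * q ^ κ →
      R (κ + 3) (m + n * E * q ^ κ)) (κ m E : ℕ) (hA : Adm q 1 E)
    (ha : (q + 2 + 2 * E) * q ^ κ ≤ 2 * m) (hb : m ≤ (q + 1 + E) * q ^ κ) : R (κ + 3) m := by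
  have e1 : (q + 2 + 2 * E) * q ^ κ = (q + 2) * q ^ κ + 2 * (E * q ^ κ) := by ring
  have e2 : (q + 1 + E) * q ^ κ = (q + 1) * q ^ κ + E * q ^ κ := by ring
  obtain ⟨m', rfl⟩ : ∃ m', m = m' + E * q ^ κ := ⟨m - E * q ^ κ, by omega⟩
  have h := hS κ 1 E m' hA (by omega) (by omega)
  rwa [one_mul] at h

/-- the middle window for `q = 5` -/
theorem window5 (R : ℕ → ℕ → Prop)
    (hS : ∀ κ n E m, Adm 5 n E → (5 + 2) * 5 ^ κ ≤ 2 * m → m ≤ (5 + 1) * 5 ^ κ →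
      R (κ + 3) (m + n * E * 5 ^ κ))
    (hT : ∀ κ m, (5 + 2) * 5 ^ κ ≤ 2 * m → m ≤ (5 + 1) * 5 ^ κ → R (κ + 3) (m + 12 * 5 ^ κ))
    (h7 : R 3 7)
    (ha : ∀ κ m, 1 ≤ κ → 6 * 5 ^ κ ≤ m → m ≤ 7 * 5 ^ κ → R (κ + 3) m)
    (hb : ∀ κ m, 1 ≤ κ → 7 * 5 ^ κ ≤ m → m ≤ 8 * 5 ^ κ → R (κ + 3) m)
    (κ m : ℕ) (h1 : D 5 (κ + 2) < m) (h2 : 2 * m < (5 + 2) * 5 ^ (κ + 1)) : R (κ + 3) m := by
  have h3 := D_ge 5 κ
  rw [pow_succ] at h2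
  have hQ : 0 < 5 ^ κ := by positivity
  by_cases c4 : 15 * 5 ^ κ ≤ 2 * m ∧ m ≤ 10 * 5 ^ κ
  · exact useS hS κ m 4 (by unfold Adm; omega) (by omega) (by omega)
  by_cases c6 : 19 * 5 ^ κ ≤ 2 * m ∧ m ≤ 12 * 5 ^ κ
  · exact useS hS κ m 6 (by unfold Adm; omega) (by omega) (by omega)
  by_cases c8 : 23 * 5 ^ κ ≤ 2 * m ∧ m ≤ 14 * 5 ^ κ
  · exact useS hS κ m 8 (by unfold Adm; omega) (by omega) (by omega)
  by_cases c10 : 27 * 5 ^ κ ≤ 2 * m ∧ m ≤ 16 * 5 ^ κ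
  · exact useS hS κ m 10 (by unfold Adm; omega) (by omega) (by omega)
  by_cases c12 : 31 * 5 ^ κ ≤ 2 * m ∧ m ≤ 18 * 5 ^ κ
  · obtain ⟨m', rfl⟩ : ∃ m', m = m' + 12 * 5 ^ κ := ⟨m - 12 * 5 ^ κ, by omega⟩
    exact hT κ m' (by omega) (by omega)
  rcases Nat.eq_zero_or_pos κ with rfl | hκ
  · have h4 : D 5 (0 + 2) = 6 := by rw [zero_add, D_two]
    rw [h4] at h1
    have : m = 7 := by omega
    rw [this]
    exact h7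
  by_cases ca : m ≤ 7 * 5 ^ κ
  · exact ha κ m hκ (by omega) ca
  · exact hb κ m hκ (by omega) (by omega)

/-- the middle window for `q = 4` -/
theorem window4 (R : ℕ → ℕ → Prop)
    (hS : ∀ κ n E m, Adm 4 n E → (4 + 2) * 4 ^ κ ≤ 2 * m → m ≤ (4 + 1) * 4 ^ κ →
      R (κ + 3) (m + n * E * 4 ^ κ))
    (h6 : R 3 6)
    (ha : ∀ κ m, 1 ≤ κ → 5 * 4 ^ κ ≤ m → m ≤ 6 * 4 ^ κ → R (κ + 3) m)
    (hb : ∀ κ m, 1 ≤ κ → 6 * 4 ^ κ ≤ m → m ≤ 7 * 4 ^ κ → R (κ + 3) m)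
    (κ m : ℕ) (h1 : D 4 (κ + 2) < m) (h2 : 2 * m < (4 + 2) * 4 ^ (κ + 1)) : R (κ + 3) m := by
  have h3 := D_ge 4 κ
  rw [pow_succ] at h2
  have hQ : 0 < 4 ^ κ := by positivity
  by_cases c4 : 14 * 4 ^ κ ≤ 2 * m ∧ m ≤ 9 * 4 ^ κ
  · exact useS hS κ m 4 (by unfold Adm; omega) (by omega) (by omega)
  by_cases c6 : 18 * 4 ^ κ ≤ 2 * m ∧ m ≤ 11 * 4 ^ κ
  · exact useS hS κ m 6 (by unfold Adm; omega) (by omega) (by omega)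
  by_cases c7 : 20 * 4 ^ κ ≤ 2 * m ∧ m ≤ 12 * 4 ^ κ
  · exact useS hS κ m 7 (by unfold Adm; omega) (by omega) (by omega)
  rcases Nat.eq_zero_or_pos κ with rfl | hκ
  · have h4 : D 4 (0 + 2) = 5 := by rw [zero_add, D_two]
    rw [h4] at h1
    have : m = 6 := by omega
    rw [this]
    exact h6
  by_cases ca : m ≤ 6 * 4 ^ κ
  · exact ha κ m hκ (by omega) ca
  · exact hb κ m hκ (by omega) (by omega)

/-- the middle window for `q = 3`; the level is `κ + 4`, the unit is `3 ^ κ`, the window is `[13.5, 22.5]` -/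
theorem window3 (R : ℕ → ℕ → Prop) (κ m : ℕ) (h5 : R 3 5) (h6 : R 3 6) (h7 : R 3 7)
    (ha : ∀ κ m, 27 * 3 ^ κ ≤ 2 * m → m ≤ 15 * 3 ^ κ → R (κ + 4) m)
    (hb : ∀ κ m, 15 * 3 ^ κ ≤ m → m ≤ 18 * 3 ^ κ → R (κ + 4) m)
    (hc : ∀ κ m, 17 * 3 ^ κ ≤ m → m ≤ 20 * 3 ^ κ → R (κ + 4) m)
    (hd : ∀ κ' m, κ = κ' + 1 → 20 * 3 ^ κ' < m → 2 * m < 45 * 3 ^ κ' → R (κ' + 4) m)
    (h1 : D 3 (κ + 2) < m) (h2 : 2 * m < (3 + 2) * 3 ^ (κ + 1)) : R (κ + 3) m := by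
  rcases Nat.eq_zero_or_pos κ with rfl | hκ
  · have h4 : D 3 (0 + 2) = 4 := by rw [zero_add, D_two]
    rw [h4] at h1
    have : m = 5 ∨ m = 6 ∨ m = 7 := by omega
    rcases this with rfl | rfl | rfl
    · exact h5
    · exact h6
    · exact h7
  obtain ⟨κ', rfl⟩ : ∃ κ', κ = κ' + 1 := ⟨κ - 1, by omega⟩
  have hD := D_mul 2 (κ' + 1 + 2)
  have e1 : (2 + 1 : ℕ) ^ (κ' + 1 + 2) = 27 * 3 ^ κ' := by ring
  have e2 : (3 + 2 : ℕ) * 3 ^ (κ' + 1 + 1) = 45 * 3 ^ κ' := by ring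
  rw [e1] at hD
  rw [e2] at h2
  have hD' : 2 * D 3 (κ' + 1 + 2) + 1 = 27 * 3 ^ κ' := hD
  by_cases ca : m ≤ 15 * 3 ^ κ'
  · exact ha κ' m (by omega) ca
  by_cases cb : m ≤ 18 * 3 ^ κ'
  · exact hb κ' m (by omega) cb
  by_cases cc : m ≤ 20 * 3 ^ κ'
  · exact hc κ' m (by omega) cc
  · exact hd κ' m rfl (by omega) h2

/-- the complete answer for `q = 5` -/
theorem all5 (R : ℕ → ℕ → Prop) (h1 : R 1 1)
    (h2 : ∀ m, 1 ≤ m → m ≤ 5 + 1 → R 2 m)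
    (hL : ∀ k m, 1 ≤ k → R k m → R (k + 1) m)
    (hU : ∀ κ m, (5 + 2) * 5 ^ κ ≤ 2 * m → m ≤ (5 + 1) * 5 ^ κ → R (κ + 2) m)
    (hE : ∀ κ m, 1 ≤ κ → 1 ≤ m → m ≤ D 5 κ → R (κ + 2) ((5 + 1) * 5 ^ κ + m))
    (hS : ∀ κ n E m, Adm 5 n E → (5 + 2) * 5 ^ κ ≤ 2 * m → m ≤ (5 + 1) * 5 ^ κ →
      R (κ + 3) (m + n * E * 5 ^ κ))
    (hT : ∀ κ m, (5 + 2) * 5 ^ κ ≤ 2 * m → m ≤ (5 + 1) * 5 ^ κ → R (κ + 3) (m + 12 * 5 ^ κ))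
    (h7 : R 3 7)
    (ha : ∀ κ m, 1 ≤ κ → 6 * 5 ^ κ ≤ m → m ≤ 7 * 5 ^ κ → R (κ + 3) m)
    (hb : ∀ κ m, 1 ≤ κ → 7 * 5 ^ κ ≤ m → m ≤ 8 * 5 ^ κ → R (κ + 3) m) :
    ∀ k m, 1 ≤ k → 1 ≤ m → m ≤ D 5 k → R k m :=
  skeleton R h1 h2 hL hU hE fun κ m _ => window5 R hS hT h7 ha hb κ m

/-- the complete answer for `q = 4` -/
theorem all4 (R : ℕ → ℕ → Prop) (h1 : R 1 1)
    (h2 : ∀ m, 1 ≤ m → m ≤ 4 + 1 → R 2 m)
    (hL : ∀ k m, 1 ≤ k → R k m → R (k + 1) m)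
    (hU : ∀ κ m, (4 + 2) * 4 ^ κ ≤ 2 * m → m ≤ (4 + 1) * 4 ^ κ → R (κ + 2) m)
    (hE : ∀ κ m, 1 ≤ κ → 1 ≤ m → m ≤ D 4 κ → R (κ + 2) ((4 + 1) * 4 ^ κ + m))
    (hS : ∀ κ n E m, Adm 4 n E → (4 + 2) * 4 ^ κ ≤ 2 * m → m ≤ (4 + 1) * 4 ^ κ →
      R (κ + 3) (m + n * E * 4 ^ κ))
    (h6 : R 3 6)
    (ha : ∀ κ m, 1 ≤ κ → 5 * 4 ^ κ ≤ m → m ≤ 6 * 4 ^ κ → R (κ + 3) m)
    (hb : ∀ κ m, 1 ≤ κ → 6 * 4 ^ κ ≤ m → m ≤ 7 * 4 ^ κ → R (κ + 3) m) :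
    ∀ k m, 1 ≤ k → 1 ≤ m → m ≤ D 4 k → R k m :=
  skeleton R h1 h2 hL hU hE fun κ m _ => window4 R hS h6 ha hb κ m

/-- the last window `(20, 22.5)` for `q = 3` from the two windows `20·3^κ + m_P`, `21·3^κ + m_P` -/
theorem window3_X (R : ℕ → ℕ → Prop)
    (hX20 : ∀ κ m, 1 ≤ m → m ≤ D 3 (κ + 1) → R (κ + 4) (20 * 3 ^ κ + m))
    (hX21 : ∀ κ m, 1 ≤ m → m ≤ D 3 (κ + 1) → R (κ + 4) (21 * 3 ^ κ + m)) (κ m : ℕ)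
    (h1 : 20 * 3 ^ κ < m) (h2 : 2 * m < 45 * 3 ^ κ) : R (κ + 4) m := by
  have hD : 2 * D 3 (κ + 1) + 1 = 3 ^ (κ + 1) := D_mul 2 (κ + 1)
  rw [pow_succ] at hD
  by_cases c : m ≤ 21 * 3 ^ κ
  · obtain ⟨m', rfl⟩ : ∃ m', m = 20 * 3 ^ κ + m' := ⟨m - 20 * 3 ^ κ, by omega⟩
    exact hX20 κ m' (by omega) (by omega)
  · obtain ⟨m', rfl⟩ : ∃ m', m = 21 * 3 ^ κ + m' := ⟨m - 21 * 3 ^ κ, by omega⟩
    exact hX21 κ m' (by omega) (by omega)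

/-- the last window `(20, 22.5)` for `q = 3` from the window `[20, 22]` and the step `22·3^κ + m_P` -/
theorem window3_E (R : ℕ → ℕ → Prop)
    (hd : ∀ κ m, 20 * 3 ^ κ ≤ m → m ≤ 22 * 3 ^ κ → R (κ + 4) m)
    (he : ∀ κ m, 1 ≤ m → m ≤ D 3 (κ + 1) → R (κ + 4) (22 * 3 ^ κ + m)) (κ m : ℕ)
    (h1 : 20 * 3 ^ κ < m) (h2 : 2 * m < 45 * 3 ^ κ) : R (κ + 4) m := by
  by_cases c : m ≤ 22 * 3 ^ κ
  · exact hd κ m (by omega) c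
  obtain ⟨m', rfl⟩ : ∃ m', m = 22 * 3 ^ κ + m' := ⟨m - 22 * 3 ^ κ, by omega⟩
  have hD : 2 * D 3 (κ + 1) + 1 = 3 ^ (κ + 1) := D_mul 2 (κ + 1)
  rw [pow_succ] at hD
  exact he κ m' (by omega) (by omega)

/-- the complete answer for `q = 3` -/
theorem all3 (R : ℕ → ℕ → Prop) (h1 : R 1 1)
    (h2 : ∀ m, 1 ≤ m → m ≤ 3 + 1 → R 2 m)
    (hL : ∀ k m, 1 ≤ k → R k m → R (k + 1) m)
    (hU : ∀ κ m, (3 + 2) * 3 ^ κ ≤ 2 * m → m ≤ (3 + 1) * 3 ^ κ → R (κ + 2) m)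
    (hE : ∀ κ m, 1 ≤ κ → 1 ≤ m → m ≤ D 3 κ → R (κ + 2) ((3 + 1) * 3 ^ κ + m))
    (h5 : R 3 5) (h6 : R 3 6) (h7 : R 3 7)
    (ha : ∀ κ m, 27 * 3 ^ κ ≤ 2 * m → m ≤ 15 * 3 ^ κ → R (κ + 4) m)
    (hb : ∀ κ m, 15 * 3 ^ κ ≤ m → m ≤ 18 * 3 ^ κ → R (κ + 4) m)
    (hc : ∀ κ m, 17 * 3 ^ κ ≤ m → m ≤ 20 * 3 ^ κ → R (κ + 4) m)
    (hd : ∀ κ m, 20 * 3 ^ κ < m → 2 * m < 45 * 3 ^ κ → R (κ + 4) m) :
    ∀ k m, 1 ≤ k → 1 ≤ m → m ≤ D 3 k → R k m :=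
  skeleton R h1 h2 hL hU hE fun κ m _ =>
    window3 R κ m h5 h6 h7 ha hb hc (fun κ' m' _ => hd κ' m')

end SE
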