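import Pool.Agent.helper40.EY.TC
import Pool.Agent.helper51.EY.CM

set_option autoImplicit false
set_option linter.unusedSectionVars false
set_option linter.unusedSimpArgs false

/-!
# Adding one variable `y` to an arbitrary form: `f = F₁(Q; u, w, x) + y² R(Q; u, w, y, x)`

`Q = u w + (y² + |x|²)/2`, `x` indexed by `κ`.  `o3_split`: the multiplicity of `f` at `e_u` is the one of
`F₁(u w + |x|²/2; u, w, x)` plus the one of the second sheet `oSys F₁ R`.
-/

namespace EY

open MvPolynomial

noncomputable section

variable {κ : Type} [Fintype κ] [DecidableEq κ]

/-- the variables `T, u, w, x` in `T, u, w, y, x` -/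
def embO (κ : Type) : Option (Option (Option κ)) → Option (Option (Option (Option κ)))
  | none => none
  | some none => some none
  | some (some none) => some (some none)
  | some (some (some j)) => some (some (some (some j)))

theorem embO_inj : Function.Injective (embO κ) := by
  intro a b h
  rcases a with _ | _ | _ | a <;> rcases b with _ | _ | _ | b <;> simp [embO] at h ⊢
  exact h

/-- `F₁ + y² R` -/
def stepO (F : MvPolynomial (Option (Option (Option κ))) ℂ)
    (R : MvPolynomial (Option (Option (Option (Option κ)))) ℂ) :
    MvPolynomial (Option (Option (Option (Option κ)))) ℂ :=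
  rename (embO κ) F + X (some (some (some none))) ^ 2 * R

/-- the value in the chart -/
def chO : MvPolynomial (Option (Option (Option κ))) ℂ →ₐ[ℂ] MvPolynomial (Option (Option κ)) ℂ :=
  aeval fun o => o.elim (qc (Option κ)) fun o => o.elim 1 fun o => o.elim (X none) fun j => X (some (some j))

theorem ch_embO (F : MvPolynomial (Option (Option (Option κ))) ℂ) : ch (rename (embO κ) F) = chO F := by
  unfold ch chO
  rw [aeval_rename]
  congr 2
  funext o
  rcases o with _ | _ | _ | j <;> rfl

theorem ch_y : ch (X (some (some (some none))) : MvPolynomial (Option (Option (Option (Option κ)))) ℂ) =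
    X (some none) := by
  unfold ch; rw [aeval_X]; rfl

theorem pderiv_embO (F : MvPolynomial (Option (Option (Option κ))) ℂ) (o : Option (Option (Option κ))) :
    pderiv (embO κ o) (rename (embO κ) F) = rename (embO κ) (pderiv o F) := pderiv_rename embO_inj ..

theorem pderiv_embO_y (F : MvPolynomial (Option (Option (Option κ))) ℂ) :
    pderiv (some (some (some none))) (rename (embO κ) F) = 0 := by
  apply pderiv_eq_zero_of_notMem_vars
  intro hmem
  obtain ⟨o, _, ho⟩ := Finset.mem_image.mp (vars_rename (embO κ) F hmem)
  rcases o with _ | _ | _ | o <;> simp [embO] at ho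

theorem pderiv_stepO (F : MvPolynomial (Option (Option (Option κ))) ℂ)
    (R : MvPolynomial (Option (Option (Option (Option κ)))) ℂ) (o : Option (Option (Option κ))) :
    pderiv (embO κ o) (stepO F R) = rename (embO κ) (pderiv o F) +
      X (some (some (some none))) ^ 2 * pderiv (embO κ o) R := by
  have ho : (some (some (some none)) : Option (Option (Option (Option κ)))) ≠ embO κ o := by
    rcases o with _ | _ | _ | o <;> simp [embO]
  unfold stepO
  rw [map_add, pderiv_embO, Derivation.leibniz, Derivation.leibniz_pow, pderiv_X_of_ne ho]
  simp only [smul_zero, smul_eq_mul, mul_zero, add_zero]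

theorem pderiv_stepO_y (F : MvPolynomial (Option (Option (Option κ))) ℂ)
    (R : MvPolynomial (Option (Option (Option (Option κ)))) ℂ) :
    pderiv (some (some (some none))) (stepO F R) = X (some (some (some none))) *
      (2 * R + X (some (some (some none))) * pderiv (some (some (some none))) R) := by
  unfold stepO
  rw [map_add, pderiv_embO_y, Derivation.leibniz, Derivation.leibniz_pow, pderiv_X_self]
  simp only [smul_eq_mul, nsmul_eq_mul, Nat.cast_ofNat, mul_one, Nat.add_one_sub_one, pow_one]
  ring

/-- the multiplier `L` in the chart -/
def oL (F : MvPolynomial (Option (Option (Option κ))) ℂ)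
    (R : MvPolynomial (Option (Option (Option (Option κ)))) ℂ) : MvPolynomial (Option (Option κ)) ℂ :=
  chO (pderiv (some (some none)) F) + X (some none) ^ 2 * ch (pderiv (some (some none)) R)

/-- the second sheet -/
def oSys (F : MvPolynomial (Option (Option (Option κ))) ℂ)
    (R : MvPolynomial (Option (Option (Option (Option κ)))) ℂ) :
    Option (Option κ) → MvPolynomial (Option (Option κ)) ℂ
  | none => chO (pderiv (some none) F) + X (some none) ^ 2 * ch (pderiv (some none) R) - X none * oL F R
  | some none => ch (2 * R + X (some (some (some none))) * pderiv (some (some (some none))) R) - oL F R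
  | some (some j) => chO (pderiv (some (some (some j))) F) +
      X (some none) ^ 2 * ch (pderiv (some (some (some (some j)))) R) - X (some (some j)) * oL F R

theorem chSys_stepO (F : MvPolynomial (Option (Option (Option κ))) ℂ)
    (R : MvPolynomial (Option (Option (Option (Option κ)))) ℂ) :
    chSys (stepO F R) = Function.update (oSys F R) (some none) (X (some none) * oSys F R (some none)) := by
  have hw : ch (pderiv (some (some none)) (stepO F R)) = oL F R := by
    have h1 := pderiv_stepO F R (some (some none))
    change pderiv (some (some none)) (stepO F R) = _ at h1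
    rw [h1, map_add, map_mul, map_pow, ch_y, ch_embO]
    rfl
  funext o
  rcases o with _ | _ | i
  · rw [Function.update_of_ne (by simp)]
    have h1 := pderiv_stepO F R (some none)
    change pderiv (some none) (stepO F R) = _ at h1
    change ch (pderiv (some none) (stepO F R)) - X none * ch (pderiv (some (some none)) (stepO F R)) = _
    rw [hw, h1, map_add, map_mul, map_pow, ch_y, ch_embO]
    rfl
  · rw [Function.update_self]
    change ch (pderiv (some (some (some none))) (stepO F R)) -
      X (some none) * ch (pderiv (some (some none)) (stepO F R)) = _
    rw [hw, pderiv_stepO_y, map_mul, ch_y]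
    change _ = X (some none) * (ch (2 * R + X (some (some (some none))) *
      pderiv (some (some (some none))) R) - oL F R)
    ring
  · rw [Function.update_of_ne (by simp)]
    have h1 := pderiv_stepO F R (some (some (some i)))
    change pderiv (some (some (some (some i)))) (stepO F R) = _ at h1
    change ch (pderiv (some (some (some (some i)))) (stepO F R)) -
      X (some (some i)) * ch (pderiv (some (some none)) (stepO F R)) = _
    rw [hw, h1, map_add, map_mul, map_pow, ch_y, ch_embO]
    rfl

theorem y0_qc : y0 (qc (Option κ)) = qc κ := by
  unfold qc
  rw [map_add, map_mul, map_sum, Fintype.sum_option]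
  simp

theorem y0_chO (F : MvPolynomial (Option (Option (Option κ))) ℂ) : y0 (chO F) = ch F := by
  have h : (y0 (τ := κ)).comp chO = ch := by
    apply MvPolynomial.algHom_ext
    intro i
    rw [AlgHom.comp_apply]
    unfold chO ch
    rw [aeval_X, aeval_X]
    rcases i with _ | _ | _ | k
    · exact y0_qc
    · exact map_one _
    · exact y0_T
    · exact y0_x k
  exact AlgHom.congr_fun h F

/-- **the two sheets** -/
theorem o3_split (F : MvPolynomial (Option (Option (Option κ))) ℂ)
    (R : MvPolynomial (Option (Option (Option (Option κ)))) ℂ)
    (h1 : mulAt (affIdeal (subN (qf κ) F) (gram κ) (some none)) 0 ≠ 0)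
    (h2 : mulAt (Ideal.span (Set.range (oSys F R))) 0 ≠ 0) :
    mulAt (affIdeal (subN (qf (Option κ)) (stepO F R)) (gram (Option κ)) (some none)) 0 =
      mulAt (affIdeal (subN (qf κ) F) (gram κ) (some none)) 0 +
        mulAt (Ideal.span (Set.range (oSys F R))) 0 := by
  have hA : mulAt (Ideal.span (Set.range (Function.update (oSys F R) (some none) (X (some none))))) 0 =
      mulAt (affIdeal (subN (qf κ) F) (gram κ) (some none)) 0 := by
    rw [affIdeal_subN]
    set I := Ideal.span (Set.range (Function.update (oSys F R) (some none) (X (some none)))) with hI
    rw [mulAt_y0 I (Ideal.subset_span ⟨some none, Function.update_self _ _ _⟩)]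
    congr 1
    rw [hI, Ideal.map_span, ← Set.range_comp]
    have hL : y0 (oL F R) = ch (pderiv (some (some none)) F) := by
      unfold oL
      rw [map_add, y0_chO, map_mul, map_pow, y0_y]
      simp
    have e0 : y0 (Function.update (oSys F R) (some none) (X (some none)) none) = chSys F none := by
      rw [Function.update_of_ne (by simp)]
      change y0 (chO (pderiv (some none) F) + X (some none) ^ 2 * ch (pderiv (some none) R) - X none * oL F R) = _
      rw [map_sub, map_add, map_mul, map_mul, map_pow, y0_y, y0_chO, y0_T, hL]
      simp [chSys]
    have e1 : y0 (Function.update (oSys F R) (some none) (X (some none)) (some none)) = 0 := by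
      rw [Function.update_self, y0_y]
    have e2 : ∀ j, y0 (Function.update (oSys F R) (some none) (X (some none)) (some (some j))) =
        chSys F (some j) := by
      intro j
      rw [Function.update_of_ne (by simp)]
      change y0 (chO (pderiv (some (some (some j))) F) +
        X (some none) ^ 2 * ch (pderiv (some (some (some (some j)))) R) - X (some (some j)) * oL F R) = _
      rw [map_sub, map_add, map_mul, map_mul, map_pow, y0_y, y0_chO, y0_x, hL]
      simp [chSys]
    apply le_antisymm
    · rw [Ideal.span_le]
      rintro _ ⟨o, rfl⟩
      rcases o with _ | _ | j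
      · exact Ideal.subset_span ⟨none, e0.symm⟩
      · change y0 (Function.update (oSys F R) (some none) (X (some none)) (some none)) ∈ _
        rw [e1]
        exact Ideal.zero_mem _
      · exact Ideal.subset_span ⟨some j, (e2 j).symm⟩
    · rw [Ideal.span_le]
      rintro _ ⟨o, rfl⟩
      rcases o with _ | j
      · exact Ideal.subset_span ⟨none, e0⟩
      · exact Ideal.subset_span ⟨some (some j), e2 j⟩
  rw [affIdeal_subN, chSys_stepO]
  have e1 : Function.update (oSys F R) (some none) (oSys F R (some none)) = oSys F R :=
    Function.update_eq_self _ _
  have h := cmAdd (oSys F R) (some none) (X (some none)) (oSys F R (some none))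
    (by rw [hA]; exact h1) (by rw [e1]; exact h2)
  rw [hA, e1] at h
  exact h

end

end EY
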