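import Mathlib

/-!
Covering arithmetic for the step `S(n,E)` over the class `C` states (MP_3fe32a).
-/

namespace SE

/-- admissible parameters of the step `S(n,E)` for degree `d = q+1` -/
def Adm (q n E : ℕ) : Prop :=
  1 ≤ n ∧ 2 * n + 1 ≤ q ∧ 3 ≤ E ∧ E ≤ 2 * q ∧
    (q + 2 ≤ E ∨ (E ≤ q + 1 ∧ 2 * (q + 2) < E * (q + 2 - 2 * n) ∧
      E * (q + 1 - 2 * n) ≠ 2 * (q + 1)))

lemma adm_one {q E : ℕ} (hq : 6 ≤ q) (h3 : 3 ≤ E) (hE : E ≤ 2 * q) : Adm q 1 E := by
  refine ⟨le_refl _, by omega, h3, hE, ?_⟩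
  by_cases h : q + 2 ≤ E
  · exact Or.inl h
  · right
    have e1 : q + 2 - 2 * 1 = q := by omega
    have e2 : q + 1 - 2 * 1 = q - 1 := by omega
    obtain ⟨p, rfl⟩ : ∃ p, q = p + 1 := ⟨q - 1, by omega⟩
    rw [e1, e2]
    refine ⟨by omega, by nlinarith, ?_⟩
    have e3 : p + 1 - 1 = p := by omega
    rw [e3]
    nlinarith

lemma adm_big {q n E : ℕ} (hn : 1 ≤ n) (hn2 : 2 * n + 1 ≤ q) (h3 : q + 2 ≤ E)
    (hE : E ≤ 2 * q) : Adm q n E :=
  ⟨hn, hn2, by omega, hE, Or.inl h3⟩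

/-- the shifts: `0` and the products `n * E` have gaps at most `q / 2` -/
lemma exists_shift {q N : ℕ} (hq : 6 ≤ q) (hN : 2 * N + 1 ≤ q ^ 2) :
    ∃ V, N ≤ V ∧ 2 * V ≤ 2 * N + (q - 2) ∧ (V = 0 ∨ ∃ n E, Adm q n E ∧ V = n * E) := by
  rcases Nat.eq_zero_or_pos N with h0 | h0
  · exact ⟨0, by omega, by omega, Or.inl rfl⟩
  by_cases h3 : N < 3
  · exact ⟨3, by omega, by omega, Or.inr ⟨1, 3, adm_one hq le_rfl (by omega), by omega⟩⟩
  by_cases h2q : N ≤ 2 * q
  · exact ⟨N, le_rfl, by omega, Or.inr ⟨1, N, adm_one hq (by omega) h2q, by omega⟩⟩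
  by_cases h2 : N ≤ 2 * q + 4
  · -- `n = 2`, first elements
    by_cases h8 : 8 ≤ q
    · exact ⟨2 * (q + 2), by omega, by omega, Or.inr ⟨2, q + 2,
        adm_big (by omega) (by omega) le_rfl (by omega), rfl⟩⟩
    · have h67 : q = 6 ∨ q = 7 := by omega
      rcases h67 with rfl | rfl
      · by_cases h : N ≤ 14
        · exact ⟨14, by omega, by omega, Or.inr ⟨2, 7, ⟨by omega, by omega, by omega, by omega,
            Or.inr ⟨by omega, by omega, by omega⟩⟩, rfl⟩⟩
        · exact ⟨16, by omega, by omega, Or.inr ⟨2, 8, adm_big (by omega) (by omega) (by omega)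
            (by omega), rfl⟩⟩
      · by_cases h : N ≤ 16
        · exact ⟨16, by omega, by omega, Or.inr ⟨2, 8, ⟨by omega, by omega, by omega, by omega,
            Or.inr ⟨by omega, by omega, by omega⟩⟩, rfl⟩⟩
        · exact ⟨18, by omega, by omega, Or.inr ⟨2, 9, adm_big (by omega) (by omega) (by omega)
            (by omega), rfl⟩⟩
  -- general case: `n` minimal with `N ≤ 2 n q`
  obtain ⟨n, hn1, hn2⟩ : ∃ n, 2 * n * q < N + 2 * q ∧ N ≤ 2 * n * q := by
    refine ⟨(N + (2 * q - 1)) / (2 * q), ?_, ?_⟩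
    · have := Nat.div_mul_le_self (N + (2 * q - 1)) (2 * q)
      have e : 2 * ((N + (2 * q - 1)) / (2 * q)) * q = (N + (2 * q - 1)) / (2 * q) * (2 * q) := by
        ring
      omega
    · have h := Nat.lt_div_mul_add (a := N + (2 * q - 1)) (b := 2 * q) (by omega)
      have e : 2 * ((N + (2 * q - 1)) / (2 * q)) * q = (N + (2 * q - 1)) / (2 * q) * (2 * q) := by
        ring
      omega
  have hn : 2 ≤ n := by
    by_contra hc
    have : n ≤ 1 := by omega
    have : 2 * n * q ≤ 2 * q := by nlinarith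
    omega
  -- `n ≤ q / 2`
  have hnq : 4 * (n - 1) < q := by
    by_contra hc
    push Not at hc
    obtain ⟨p, rfl⟩ : ∃ p, n = p + 1 := ⟨n - 1, by omega⟩
    have hc' : q ≤ 4 * p := by simpa using hc
    nlinarith
  set e := (N + (n - 1)) / n with he
  have hdiv1 : e * n ≤ N + (n - 1) := Nat.div_mul_le_self _ _
  have hdiv2 : N + (n - 1) < e * n + n := Nat.lt_div_mul_add (by omega)
  have hVe : N ≤ n * e := by
    have : n * e = e * n := by ring
    omega
  have hVe2 : n * e ≤ N + (n - 1) := by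
    have : n * e = e * n := by ring
    omega
  have heU : e ≤ 2 * q := by
    by_contra hc
    push Not at hc
    have : n * (2 * q + 1) ≤ n * e := Nat.mul_le_mul_left _ (by omega)
    have h3 : n * (2 * q + 1) = 2 * n * q + n := by ring
    omega
  have heL : q + 2 ≤ e := by
    by_contra hc
    push Not at hc
    have h4 : n * e ≤ n * (q + 1) := Nat.mul_le_mul_left _ (by omega)
    by_cases hn3 : 3 ≤ n
    · have h5 : N ≤ n * (q + 1) := by omega
      have h6 : 2 * n * q < n * (q + 1) + 2 * q := by omega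
      obtain ⟨p, rfl⟩ : ∃ p, n = p + 3 := ⟨n - 3, by omega⟩
      nlinarith
    · have : n = 2 := by omega
      subst this
      omega
  refine ⟨n * e, hVe, ?_, Or.inr ⟨n, e, adm_big (by omega) ?_ heL heU, rfl⟩⟩
  · omega
  · omega

/-- every integer of the lower half is an admissible shift of a class `C` value -/
theorem cover {q κ m : ℕ} (hq : 6 ≤ q) (h1 : (q + 2) * q ^ κ ≤ 2 * m)
    (h2 : 2 * m ≤ (q ^ 2 + 2 * q) * q ^ κ) :
    ∃ m', (q + 2) * q ^ κ ≤ 2 * m' ∧ m' ≤ (q + 1) * q ^ κ ∧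
      (m = m' ∨ ∃ n E, Adm q n E ∧ m = m' + n * E * q ^ κ) := by
  set Q := q ^ κ with hQ
  have hQ0 : 0 < Q := by positivity
  by_cases h0 : m ≤ (q + 1) * Q
  · exact ⟨m, h1, h0, Or.inl rfl⟩
  push Not at h0
  -- `N = ⌈m / Q⌉ - (q + 1)`
  obtain ⟨N, hN1, hN2⟩ : ∃ N, (N + q) * Q < m ∧ m ≤ (N + (q + 1)) * Q := by
    refine ⟨(m - 1) / Q - q, ?_, ?_⟩
    · have hge : q ≤ (m - 1) / Q := by
        rw [Nat.le_div_iff_mul_le hQ0]
        have : (q + 1) * Q = q * Q + Q := by ring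
        omega
      have e : (m - 1) / Q - q + q = (m - 1) / Q := by omega
      rw [e]
      have := Nat.div_mul_le_self (m - 1) Q
      have : 1 ≤ m := by omega
      omega
    · have hge : q ≤ (m - 1) / Q := by
        rw [Nat.le_div_iff_mul_le hQ0]
        have : (q + 1) * Q = q * Q + Q := by ring
        omega
      have e : (m - 1) / Q - q + (q + 1) = (m - 1) / Q + 1 := by omega
      rw [e]
      have h := Nat.lt_div_mul_add (a := m - 1) (b := Q) hQ0
      have e2 : ((m - 1) / Q + 1) * Q = (m - 1) / Q * Q + Q := by ring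
      omega
  have hNq : 2 * N + 1 ≤ q ^ 2 := by
    by_contra hc
    push Not at hc
    have h3 : q ^ 2 ≤ 2 * N := by omega
    have h4 : (q ^ 2 + 2 * q) * Q ≤ (2 * N + 2 * q) * Q := Nat.mul_le_mul_right _ (by omega)
    have h5 : (2 * N + 2 * q) * Q = 2 * ((N + q) * Q) := by ring
    omega
  obtain ⟨V, hV1, hV2, hV3⟩ := exists_shift hq hNq
  have hVQ : 2 * (V * Q) + (q + 2) * Q ≤ 2 * ((N + q) * Q) := by
    have h6 : (2 * V + (q + 2)) * Q ≤ (2 * (N + q)) * Q := Nat.mul_le_mul_right _ (by omega)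
    have e1 : (2 * V + (q + 2)) * Q = 2 * (V * Q) + (q + 2) * Q := by ring
    have e2 : (2 * (N + q)) * Q = 2 * ((N + q) * Q) := by ring
    omega
  have hVm : V * Q ≤ m := by
    have : 0 ≤ (q + 2) * Q := Nat.zero_le _
    omega
  refine ⟨m - V * Q, by omega, ?_, ?_⟩
  · have h7 : (N + (q + 1)) * Q ≤ (V + (q + 1)) * Q := Nat.mul_le_mul_right _ (by omega)
    have e3 : (V + (q + 1)) * Q = V * Q + (q + 1) * Q := by ring
    omega
  · rcases hV3 with h | ⟨n, E, hA, h⟩
    · left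
      subst h
      omega
    · right
      exact ⟨n, E, hA, by rw [← h]; omega⟩

end SE
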