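import Pool.Agent.helper51.EY.ZSt

set_option autoImplicit false
set_option linter.unusedSectionVars false
set_option linter.unusedSimpArgs false

/-!
# The sheet `h = b = 0` of the step `Z(0)` over `φ = t T b^(q-1) + P(w, b, z)`, `P(w, 0, z)` nonsingular (T3)
-/

namespace EY

open MvPolynomial

noncomputable section

variable {ρ : Type} [Fintype ρ] [DecidableEq ρ]

/-- the weights `w : 2`, `y : 1`, `b : 2 q + 1`, `z : 2` -/
def w26T3 (ρ : Type) (q : ℕ) : Option (Option (Option ρ)) → ℕ
  | none => 2
  | some none => 1
  | some (some none) => 2 * q + 1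
  | some (some (some _)) => 2

/-- the value of a polynomial in `w, b, z` in the chart -/
def c26T3 : MvPolynomial (Option (Option ρ)) ℂ →ₐ[ℂ] MvPolynomial (Option (Option (Option ρ))) ℂ :=
  aeval fun o => o.elim (X none) fun o => X (some (some o))

/-- the value at `b = 0` -/
def c26T3z : MvPolynomial (Option (Option ρ)) ℂ →ₐ[ℂ] MvPolynomial (Option (Option (Option ρ))) ℂ :=
  aeval fun o => o.elim (X none) fun o => o.elim 0 fun r => X (some (some (some r)))

theorem chY_rename_some (Q : MvPolynomial (Option (Option ρ)) ℂ) :
    chY (Option ρ) (rename some Q) = c26T3 Q := by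
  unfold chY c26T3
  rw [aeval_rename]
  rfl

theorem wh26_two {σ : Type*} [Fintype σ] {n : ℕ} {Q : MvPolynomial σ ℂ} (h : Q.IsHomogeneous n) :
    wh (fun _ => 2) (2 * n) Q := by
  intro α hα
  have h1 := h hα
  rw [Finsupp.weight_apply, Finsupp.sum_fintype _ _ (by simp)] at h1
  unfold wd
  rw [← Finset.mul_sum]
  congr 1
  rw [← h1]
  simp

theorem lead26T3 {q n : ℕ} (hq : 1 ≤ q) {Q : MvPolynomial (Option (Option ρ)) ℂ} (h : Q.IsHomogeneous n) :
    Lead (w26T3 ρ q) (2 * n) (c26T3 Q) (c26T3z Q) := by
  unfold c26T3 c26T3z
  refine Lead.aeval (v := fun _ => 2) (fun o => ?_) (Lead.self (wh26_two h).wlo)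
  rcases o with _ | _ | r
  · exact Lead.X (w26T3 ρ q) none
  · refine Lead.zero ?_
    exact wlo_mono (by simp only [w26T3]; omega) (wh_X (w26T3 ρ q) (some (some none))).wlo
  · exact Lead.X (w26T3 ρ q) (some (some (some r)))

theorem wh26T3z {q n : ℕ} {Q : MvPolynomial (Option (Option ρ)) ℂ} (h : Q.IsHomogeneous n) :
    wh (w26T3 ρ q) (2 * n) (c26T3z Q) := by
  unfold c26T3z
  refine wh_aeval (v := fun _ => 2) (fun o => ?_) (wh26_two h)
  rcases o with _ | _ | r
  · exact wh_X (w26T3 ρ q) none
  · exact wh_zero _ _
  · exact wh_X (w26T3 ρ q) (some (some (some r)))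

theorem eval_c26T3z (p : Option (Option (Option ρ)) → ℂ) (Q : MvPolynomial (Option (Option ρ)) ℂ) :
    eval p (c26T3z Q) = eval (fun o : Option (Option ρ) => o.elim (p none) fun o => o.elim 0
      fun r => p (some (some (some r)))) Q := by
  unfold c26T3z
  induction Q using MvPolynomial.induction_on with
  | C a => simp
  | add p q hp hq => rw [map_add, map_add, hp, hq, map_add]
  | mul_X p' o hp =>
    rw [map_mul, map_mul, hp, map_mul, aeval_X, eval_X]
    congr 1
    rcases o with _ | _ | r <;> simp

theorem wlo26_qc {q : ℕ} : wlo (w26T3 ρ q) 1 (qc (Option (Option ρ))) := by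
  unfold qc
  refine wlo_add (wlo_mono (by simp [w26T3]) (wh_X (w26T3 ρ q) none).wlo) (wlo_C_mul _ (wlo_sum _ fun i _ => ?_))
  refine wlo_mono ?_ (wh_pow (wh_X (w26T3 ρ q) (some i)) 2).wlo
  rcases i with _ | _ | r <;> simp only [w26T3] <;> omega

theorem zT3_J1_26 {q : ℕ} (hq : 3 ≤ q) (P : MvPolynomial (Option (Option ρ)) ℂ) (hP : P.IsHomogeneous (q + 1))
    {t θ : ℂ} (hθ : θ ≠ 0)
    (hP0 : ∀ p : Option (Option ρ) → ℂ, p (some none) = 0 → eval p (pderiv none P) = 0 →
      (∀ r, eval p (pderiv (some (some r)) P) = 0) → p = 0) :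
    mulAt (Ideal.span (Set.range (zSys (phiU0 ρ q t P) θ 0 (zh ρ 0)))) 0 = 2 * q ^ (Fintype.card ρ + 1) := by
  have hd : ∀ o, (pderiv o P).IsHomogeneous q := fun o => by
    have := hP.pderiv (i := o)
    simpa using this
  -- the derivatives of the state
  have dw : pderiv (some none) (phiU0 ρ q t P) = rename some (pderiv none P) := by
    unfold phiU0
    rw [map_add, Derivation.leibniz, Derivation.leibniz, Derivation.leibniz_pow, pderiv_C,
      pderiv_X_of_ne (by simp), pderiv_X_of_ne (by simp), pderiv_rename (Option.some_injective _)]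
    simp
  have db : pderiv (some (some none)) (phiU0 ρ q t P) =
      C (t * (q - 1 : ℕ)) * (X none * X (some (some none)) ^ (q - 2)) + rename some (pderiv (some none) P) := by
    have p1 : pderiv (some (some none)) (X none : MvPolynomial (Option (Option (Option ρ))) ℂ) = 0 :=
      pderiv_X_of_ne (by simp)
    have p2 : pderiv (some (some none)) (X (some (some none)) : MvPolynomial (Option (Option (Option ρ))) ℂ) = 1 :=
      pderiv_X_self _
    unfold phiU0
    rw [map_add, Derivation.leibniz, Derivation.leibniz, Derivation.leibniz_pow, pderiv_C,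
      p1, p2, pderiv_rename (Option.some_injective _)]
    have : q - 1 - 1 = q - 2 := by omega
    rw [this]
    simp
    ring
  have dz : ∀ r, pderiv (some (some (some r))) (phiU0 ρ q t P) = rename some (pderiv (some (some r)) P) := by
    intro r
    unfold phiU0
    rw [map_add, Derivation.leibniz, Derivation.leibniz, Derivation.leibniz_pow, pderiv_C,
      pderiv_X_of_ne (by simp), pderiv_X_of_ne (by simp), pderiv_rename (Option.some_injective _)]
    simp
  have hL : zL (phiU0 ρ q t P) θ 0 = c26T3 (pderiv none P) := by
    unfold zL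
    rw [dw, chY_rename_some]
    simp
  have hLlo : wlo (w26T3 ρ q) (2 * q) (zL (phiU0 ρ q t P) θ 0) := by
    rw [hL]
    exact (lead26T3 (by omega) (hd none)).lof
  have hh : zh ρ 0 = X (some (some none)) := by
    unfold zh
    simp
  have h := wBez (w := w26T3 ρ q)
    (d := fun o => o.elim (2 * q + 1) fun o => o.elim (2 * q) fun o => o.elim 2 fun _ => 2 * q)
    (f := zSys (phiU0 ρ q t P) θ 0 (zh ρ 0))
    (g := fun o => o.elim (X (some (some none))) fun o => o.elim (- c26T3z (pderiv none P)) fun o =>
      o.elim (C θ * X (some none) ^ 2) fun r => c26T3z (pderiv (some (some r)) P))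
    (by intro o; rcases o with _ | _ | _ | r <;> simp [w26T3])
    (by intro o; rcases o with _ | _ | _ | r <;> simp only [Option.elim] <;> omega)
    (by
      intro o
      rcases o with _ | _ | _ | r
      · exact wh_X (w26T3 ρ q) (some (some none))
      · exact wh_neg (wh26T3z (hd none))
      · exact wh_C_mul _ (wh_pow (wh_X (w26T3 ρ q) (some none)) 2)
      · exact wh26T3z (hd (some (some r))))
    (by
      intro p hp
      have h1 : p (some (some none)) = 0 := by
        have := hp none
        simpa only [Option.elim, eval_X] using this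
      have h2 := hp (some none)
      simp only [Option.elim, map_neg, neg_eq_zero] at h2
      rw [eval_c26T3z] at h2
      have h3 : ∀ r : ρ, _ := fun r => hp (some (some (some r)))
      simp only [Option.elim] at h3
      have h4 := hP0 (fun o : Option (Option ρ) => o.elim (p none) fun o => o.elim 0
        fun r => p (some (some (some r)))) rfl h2 (fun r => by
          have := h3 r
          rwa [eval_c26T3z] at this)
      have h5 : p (some none) = 0 := by
        have := hp (some (some none))
        simp only [Option.elim, map_mul, eval_C, map_pow, eval_X] at this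
        exact pow_eq_zero_iff (by norm_num) |>.mp ((mul_eq_zero.mp this).resolve_left hθ)
      funext o
      rcases o with _ | _ | _ | r
      · exact congrFun h4 none
      · exact h5
      · exact h1
      · exact congrFun h4 (some (some r)))
    (by
      intro o
      rcases o with _ | _ | _ | r
      · change Lead _ _ (zh ρ 0) (X (some (some none)))
        rw [hh]
        exact Lead.X (w26T3 ρ q) (some (some none))
      · change Lead _ (2 * q) (C (2 * θ) * zh ρ 0 - zL (phiU0 ρ q t P) θ 0) (- c26T3z (pderiv none P))
        rw [hL, hh]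
        have h1 := (lead26T3 (by omega) (hd none) (q := q)).neg
        have h2 : wlo (w26T3 ρ q) (2 * q + 1) (C (2 * θ) * X (some (some none)) :
            MvPolynomial (Option (Option (Option ρ))) ℂ) :=
          wlo_C_mul _ (wh_X (w26T3 ρ q) (some (some none))).wlo
        have h3 := h1.add_hi h2
        rw [neg_add_eq_sub] at h3
        exact h3
      · change Lead _ 2 (chY (Option ρ) (pderiv (some (some none)) (phiU0 ρ q t P)) + C θ * X (some none) ^ 2 -
          X (some (some none)) * zL (phiU0 ρ q t P) θ 0) (C θ * X (some none) ^ 2)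
        rw [db, map_add, chY_rename_some]
        have h1 := ((Lead.X (w26T3 ρ q) (some none)).pow 2).C_mul θ
        have h2 : wlo (w26T3 ρ q) (2 + 1) (chY (Option ρ) (C (t * (q - 1 : ℕ)) *
            (X none * X (some (some none)) ^ (q - 2)))) := by
          have e : chY (Option ρ) (C (t * (q - 1 : ℕ)) * (X none * X (some (some none)) ^ (q - 2))) =
              C (t * (q - 1 : ℕ)) * (qc (Option (Option ρ)) * X (some (some none)) ^ (q - 2)) := by
            unfold chY
            rw [map_mul (aeval _) (C (t * (q - 1 : ℕ))), aeval_C, map_mul (aeval _) (X none), map_pow, aeval_X,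
              aeval_X]
            rfl
          rw [e]
          refine wlo_C_mul _ (wlo_mono ?_ (wlo_mul wlo26_qc (wh_pow (wh_X (w26T3 ρ q) (some (some none))) (q - 2)).wlo))
          simp only [w26T3]
          have : 1 ≤ q - 2 := by omega
          nlinarith
        have h3 : wlo (w26T3 ρ q) (2 + 1) (c26T3 (pderiv (some none) P)) :=
          wlo_mono (by omega) (lead26T3 (by omega) (hd (some none)) (q := q)).lof
        have h4 : wlo (w26T3 ρ q) (2 + 1) (-(X (some (some none)) * zL (phiU0 ρ q t P) θ 0)) := by
          refine wlo_neg (wlo_mono ?_ (wlo_mul_right (wh_X (w26T3 ρ q) (some (some none))).wlo _))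
          simp only [w26T3]
          omega
        have h5 := h1.add_hi (wlo_add (wlo_add h2 h3) h4)
        have e : C θ * X (some none) ^ 2 + (chY (Option ρ) (C (t * (q - 1 : ℕ)) *
            (X none * X (some (some none)) ^ (q - 2))) + c26T3 (pderiv (some none) P) +
            -(X (some (some none)) * zL (phiU0 ρ q t P) θ 0)) =
            chY (Option ρ) (C (t * (q - 1 : ℕ)) * (X none * X (some (some none)) ^ (q - 2))) +
            c26T3 (pderiv (some none) P) + C θ * X (some none) ^ 2 -
            X (some (some none)) * zL (phiU0 ρ q t P) θ 0 := by ring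
        rw [e] at h5
        exact h5.cast (by simp [w26T3])
      · change Lead _ (2 * q) (chY (Option ρ) (pderiv (some (some (some r))) (phiU0 ρ q t P)) -
          X (some (some (some r))) * zL (phiU0 ρ q t P) θ 0) (c26T3z (pderiv (some (some r)) P))
        rw [dz, chY_rename_some]
        have h1 := lead26T3 (by omega) (hd (some (some r))) (q := q)
        have h2 : wlo (w26T3 ρ q) (2 * q + 1) (-(X (some (some (some r))) * zL (phiU0 ρ q t P) θ 0)) := by
          refine wlo_neg (wlo_mono ?_ (wlo_mul (wh_X (w26T3 ρ q) (some (some (some r)))).wlo hLlo))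
          simp only [w26T3]
          omega
        have h3 := h1.add_hi h2
        rw [← sub_eq_add_neg] at h3
        exact h3)
  rw [Fintype.prod_option, Fintype.prod_option, Fintype.prod_option, Fintype.prod_option, Fintype.prod_option,
    Fintype.prod_option] at h
  simp only [w26T3, Option.elim, Finset.prod_const, Finset.card_univ, one_mul] at h
  rw [mul_pow] at h
  have h3 : mulAt (Ideal.span (Set.range (zSys (phiU0 ρ q t P) θ 0 (zh ρ 0)))) 0 *
      (2 * ((2 * q + 1) * 2 ^ Fintype.card ρ)) =
      (2 * q ^ (Fintype.card ρ + 1)) * (2 * ((2 * q + 1) * 2 ^ Fintype.card ρ)) := by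
    rw [h]
    ring
  exact Nat.eq_of_mul_eq_mul_right (by positivity) h3

end

end EY
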