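import Pool.Agent.helper26.SE.T5m
import Pool.Agent.helper35.EY.FinS
import Pool.Agent.helper5.EY.Asm

set_option autoImplicit false

/-!
# The hypothesis `hT` of `SE.all5`: the shift `n (2 q + 2)` (`12` for `q = 5`, `n = 1`)
-/

namespace EY

open MvPolynomial

theorem stepF_RS_F5 {τ : Type} [Fintype τ] [DecidableEq τ] (φ : MvPolynomial (Option (Option τ)) ℂ) (a n : ℕ)
    (α : ℂ) : subN (qf (Option τ)) (F5 φ a n α) = formR φ (RS τ a n 0 0 0 0 α 0) := by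
  unfold F5 formR stepF RS
  simp

theorem t5_rz {q n : ℕ} (hq : 2 ≤ q) (hn : 1 ≤ n) (hnq : 2 * n + 1 ≤ q)
    (HU : ∀ K E, 2 * E ≤ q ^ (K + 1) → ∃ φ, MSt (Fin K) q E φ)
    (HC : ∀ K E φ, MSt (Fin K) q E φ →
      mulAt (affIdeal (formC φ) (gram (Fin K)) (some none)) 0 + E = q ^ K + q ^ (K + 1))
    (κ m : ℕ) (h1 : (q + 2) * q ^ κ ≤ 2 * m) (h2 : m ≤ (q + 1) * q ^ κ) :
    Rz q (κ + 3) (m + n * (2 * q + 2) * q ^ κ) := by
  have hQ : 0 < q ^ κ := by positivity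
  have e1 : (q + 2) * q ^ κ = q ^ (κ + 1) + 2 * q ^ κ := by ring
  have e2 : (q + 1) * q ^ κ = q ^ (κ + 1) + q ^ κ := by ring
  have hm0 : 0 < m := by
    rcases Nat.eq_zero_or_pos m with h | h
    · subst h
      have h0 : 0 < (q + 2) * q ^ κ := by positivity
      omega
    · exact h
  obtain ⟨φ, hφ⟩ := HU κ ((q + 1) * q ^ κ - m) (by omega)
  have h3 := HC κ _ φ hφ
  have h4 : mulAt (affIdeal (formC φ) (gram (Fin κ)) (some none)) 0 = m := by omega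
  obtain ⟨B, hB, H⟩ := sstep_finLines hq hφ.wh hφ.hi hφ.hii (q - 1 - 2 * n) n 0 0 0 0 (0 : ℂ)
    (fun _ => hφ.toSt.hiii) hφ.fin (by omega) (fun h => absurd rfl h) (fun h => absurd rfl h)
  obtain ⟨α, hα⟩ := (hB.union (Set.finite_singleton (0 : ℂ))).infinite_compl.nonempty
  rw [Set.mem_compl_iff, Set.mem_union, not_or, Set.mem_singleton_iff] at hα
  have h5 := t5_mult φ (q - 1 - 2 * n) n α hq hφ.toSt hn hnq hα.2 (by omega)
  rw [h4, Fintype.card_fin, stepF_RS_F5] at h5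
  exact rz_of_form' (by simp) (by omega) (formR φ (RS (Fin κ) (q - 1 - 2 * n) n 0 0 0 0 α 0))
    (formR_hom (by omega) hφ.wh (wh_RS (by omega) (fun h => absurd rfl h)))
    (H α hα.1 (by rw [h5]; omega)) h5

/-- the hypothesis `hT` of `SE.all5` -/
theorem hT_of (HU : ∀ K E, 2 * E ≤ 5 ^ (K + 1) → ∃ φ, MSt (Fin K) 5 E φ)
    (HC : ∀ K E φ, MSt (Fin K) 5 E φ →
      mulAt (affIdeal (formC φ) (gram (Fin K)) (some none)) 0 + E = 5 ^ K + 5 ^ (K + 1))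
    (κ m : ℕ) (h1 : (5 + 2) * 5 ^ κ ≤ 2 * m) (h2 : m ≤ (5 + 1) * 5 ^ κ) : Rz 5 (κ + 3) (m + 12 * 5 ^ κ) := by
  have h := t5_rz (n := 1) (by norm_num) le_rfl (by norm_num) HU HC κ m h1 h2
  simpa using h

end EY
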