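import Pool.Agent.helper40.EY.TC
import Pool.Agent.helper51.EY.CM

set_option autoImplicit false
set_option linter.unusedSectionVars false
set_option linter.unusedSimpArgs false

/-!
# The step `f = φ(Q; w, x) + y² R`: splitting off the sheet `y = 0`, and the step `α u^(q-1-2n) Q^n y²`

`splitY`: in helper40's coordinates `(T, y, x)`, if the `y`-equation is `y * E`, then the multiplicity of the step is
the multiplicity of the class C form plus the multiplicity of the second sheet.
`t5_mult`: the step `α u^(q-1-2n) Q^n y²` adds `n (2 q + 2) q ^ card τ`.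
-/

namespace EY

open MvPolynomial

noncomputable section

variable {τ : Type} [Fintype τ] [DecidableEq τ]

/-- splitting off the sheet `y = 0` -/
theorem splitY (φ : MvPolynomial (Option (Option τ)) ℂ)
    (G : Option (Option τ) → MvPolynomial (Option (Option τ)) ℂ) (E : MvPolynomial (Option (Option τ)) ℂ)
    (hy : G (some none) = X (some none) * E)
    (h0 : y0 (G none) = tSys (rename (embC τ) φ) none)
    (hx : ∀ i : τ, y0 (G (some (some i))) = tSys (rename (embC τ) φ) (some i))
    (hA : mulAt (affIdeal (formC φ) (gram τ) (some none)) 0 ≠ 0)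
    (hB : mulAt (Ideal.span (Set.range (Function.update G (some none) E))) 0 ≠ 0) :
    mulAt (Ideal.span (Set.range G)) 0 = mulAt (affIdeal (formC φ) (gram τ) (some none)) 0 +
      mulAt (Ideal.span (Set.range (Function.update G (some none) E))) 0 := by
  have hC : mulAt (affIdeal (formC φ) (gram τ) (some none)) 0 =
      mulAt (Ideal.span (Set.range (Function.update G (some none) (X (some none))))) 0 := by
    have e1 : mulAt (affIdeal (formC φ) (gram τ) (some none)) 0 =
        mulAt (Ideal.span (Set.range (tSys (rename (embC τ) φ)))) 0 := mulAt_T _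
    rw [e1, mulAt_y0 (Ideal.span (Set.range (Function.update G (some none) (X (some none)))))
      (Ideal.subset_span ⟨some none, by rw [Function.update_self]⟩)]
    congr 1
    rw [Ideal.map_span, ← Set.range_comp]
    apply le_antisymm
    · rw [Ideal.span_le]
      rintro _ ⟨o, rfl⟩
      rcases o with _ | i
      · refine Ideal.subset_span ⟨none, ?_⟩
        rw [Function.comp_apply, Function.update_of_ne (by simp)]
        exact h0
      · refine Ideal.subset_span ⟨some (some i), ?_⟩
        rw [Function.comp_apply, Function.update_of_ne (by simp)]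
        exact hx i
    · rw [Ideal.span_le]
      rintro _ ⟨o, rfl⟩
      rw [Function.comp_apply]
      rcases o with _ | _ | i
      · rw [Function.update_of_ne (by simp)]
        exact Ideal.subset_span ⟨none, h0.symm⟩
      · rw [Function.update_self]
        rw [y0_y]
        exact Ideal.zero_mem _
      · rw [Function.update_of_ne (by simp)]
        exact Ideal.subset_span ⟨some i, (hx i).symm⟩
  have h1 : G = Function.update G (some none) (X (some none) * E) := by
    rw [← hy, Function.update_eq_self]
  rw [hC] at hA ⊢
  conv_lhs => rw [h1]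
  exact cmAdd G (some none) (X (some none)) E hA hB

/-- the polynomial of the step -/
def F5 (φ : MvPolynomial (Option (Option τ)) ℂ) (a n : ℕ) (α : ℂ) :
    MvPolynomial (Option (Option (Option (Option τ)))) ℂ :=
  rename (embY τ) φ + X (some (some (some none))) ^ 2 * (C α * (X (some none) ^ a * X none ^ n))

variable (φ : MvPolynomial (Option (Option τ)) ℂ) (a n : ℕ) (α : ℂ)

theorem tSys_F5_none : tSys (F5 φ a n α) none =
    C (α * a) * (X none ^ n * X (some none) ^ 2) - wq (Option τ) * sev (pderiv (some none) φ) := by
  have p1 : pderiv (some none) (X (some (some (some none))) : MvPolynomial (Option (Option (Option (Option τ)))) ℂ) = 0 :=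
    pderiv_X_of_ne (by simp)
  have p2 : pderiv (some none) (X (some none) : MvPolynomial (Option (Option (Option (Option τ)))) ℂ) = 1 :=
    pderiv_X_self _
  have p3 : pderiv (some none) (X none : MvPolynomial (Option (Option (Option (Option τ)))) ℂ) = 0 :=
    pderiv_X_of_ne (by simp)
  have q1 : pderiv (some (some none)) (X (some (some (some none))) :
      MvPolynomial (Option (Option (Option (Option τ)))) ℂ) = 0 := pderiv_X_of_ne (by simp)
  have q2 : pderiv (some (some none)) (X (some none) : MvPolynomial (Option (Option (Option (Option τ)))) ℂ) = 0 :=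
    pderiv_X_of_ne (by simp)
  have q3 : pderiv (some (some none)) (X none : MvPolynomial (Option (Option (Option (Option τ)))) ℂ) = 0 :=
    pderiv_X_of_ne (by simp)
  have e1 : tev (pderiv (some none) (F5 φ a n α)) = C (α * a) * (X none ^ n * X (some none) ^ 2) := by
    unfold F5
    rw [map_add, pderiv_embY_u, zero_add, Derivation.leibniz, Derivation.leibniz_pow, p1, Derivation.leibniz,
      Derivation.leibniz, Derivation.leibniz_pow, Derivation.leibniz_pow, p2, p3, pderiv_C]
    simp only [smul_zero, smul_eq_mul, mul_one, add_zero, zero_add, map_mul, map_pow, tev_x, tev_C, tev_T, tev_u,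
      one_pow, mul_zero, nsmul_eq_mul, map_natCast, C_mul]
    ring
  have e2 : tev (pderiv (some (some none)) (F5 φ a n α)) = sev (pderiv (some none) φ) := by
    unfold F5
    rw [map_add, pderiv_embY_w, Derivation.leibniz, Derivation.leibniz_pow, q1, Derivation.leibniz,
      Derivation.leibniz, Derivation.leibniz_pow, Derivation.leibniz_pow, q2, q3, pderiv_C]
    simp only [smul_zero, smul_eq_mul, add_zero, mul_zero, map_add, tev_embY]
  change tev _ - wq (Option τ) * tev _ = _
  rw [e1, e2]

theorem tSys_F5_y : tSys (F5 φ a n α) (some none) =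
    X (some none) * (C (2 * α) * X none ^ n - sev (pderiv (some none) φ)) := by
  have p1 : pderiv (some (some (some none))) (X (some (some (some none))) :
      MvPolynomial (Option (Option (Option (Option τ)))) ℂ) = 1 := pderiv_X_self _
  have p2 : pderiv (some (some (some none))) (X (some none) :
      MvPolynomial (Option (Option (Option (Option τ)))) ℂ) = 0 := pderiv_X_of_ne (by simp)
  have p3 : pderiv (some (some (some none))) (X none : MvPolynomial (Option (Option (Option (Option τ)))) ℂ) = 0 :=
    pderiv_X_of_ne (by simp)
  have q1 : pderiv (some (some none)) (X (some (some (some none))) :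
      MvPolynomial (Option (Option (Option (Option τ)))) ℂ) = 0 := pderiv_X_of_ne (by simp)
  have q2 : pderiv (some (some none)) (X (some none) : MvPolynomial (Option (Option (Option (Option τ)))) ℂ) = 0 :=
    pderiv_X_of_ne (by simp)
  have q3 : pderiv (some (some none)) (X none : MvPolynomial (Option (Option (Option (Option τ)))) ℂ) = 0 :=
    pderiv_X_of_ne (by simp)
  have e1 : tev (pderiv (some (some (some none))) (F5 φ a n α)) = X (some none) * (C (2 * α) * X none ^ n) := by
    unfold F5
    rw [map_add, pderiv_embY_y, zero_add, Derivation.leibniz, Derivation.leibniz_pow, p1, Derivation.leibniz,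
      Derivation.leibniz, Derivation.leibniz_pow, Derivation.leibniz_pow, p2, p3, pderiv_C]
    simp only [smul_zero, smul_eq_mul, mul_one, add_zero, zero_add, map_mul, map_pow, tev_x, tev_C, tev_T, tev_u,
      one_pow, mul_zero, nsmul_eq_mul, map_natCast, C_mul]
    have : (C 2 : MvPolynomial (Option (Option τ)) ℂ) = 2 := by
      rw [show (2 : ℂ) = ((2 : ℕ) : ℂ) by norm_num, map_natCast]
      norm_num
    rw [this]
    push_cast
    ring
  have e2 : tev (pderiv (some (some none)) (F5 φ a n α)) = sev (pderiv (some none) φ) := by
    unfold F5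
    rw [map_add, pderiv_embY_w, Derivation.leibniz, Derivation.leibniz_pow, q1, Derivation.leibniz,
      Derivation.leibniz, Derivation.leibniz_pow, Derivation.leibniz_pow, q2, q3, pderiv_C]
    simp only [smul_zero, smul_eq_mul, add_zero, mul_zero, map_add, tev_embY]
  change tev _ - X (some none) * tev _ = _
  rw [e1, e2]
  ring

theorem tSys_F5_x (i : τ) : tSys (F5 φ a n α) (some (some i)) =
    sev (pderiv (some (some i)) φ) - X (some (some i)) * sev (pderiv (some none) φ) := by
  have p1 : pderiv (some (some (some (some i)))) (X (some (some (some none))) :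
      MvPolynomial (Option (Option (Option (Option τ)))) ℂ) = 0 := pderiv_X_of_ne (by simp)
  have p2 : pderiv (some (some (some (some i)))) (X (some none) :
      MvPolynomial (Option (Option (Option (Option τ)))) ℂ) = 0 := pderiv_X_of_ne (by simp)
  have p3 : pderiv (some (some (some (some i)))) (X none :
      MvPolynomial (Option (Option (Option (Option τ)))) ℂ) = 0 := pderiv_X_of_ne (by simp)
  have q1 : pderiv (some (some none)) (X (some (some (some none))) :
      MvPolynomial (Option (Option (Option (Option τ)))) ℂ) = 0 := pderiv_X_of_ne (by simp)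
  have q2 : pderiv (some (some none)) (X (some none) : MvPolynomial (Option (Option (Option (Option τ)))) ℂ) = 0 :=
    pderiv_X_of_ne (by simp)
  have q3 : pderiv (some (some none)) (X none : MvPolynomial (Option (Option (Option (Option τ)))) ℂ) = 0 :=
    pderiv_X_of_ne (by simp)
  have e1 : tev (pderiv (some (some (some (some i)))) (F5 φ a n α)) = sev (pderiv (some (some i)) φ) := by
    unfold F5
    rw [map_add, pderiv_embY_x, Derivation.leibniz, Derivation.leibniz_pow, p1, Derivation.leibniz,
      Derivation.leibniz, Derivation.leibniz_pow, Derivation.leibniz_pow, p2, p3, pderiv_C]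
    simp only [smul_zero, smul_eq_mul, add_zero, mul_zero, map_add, tev_embY]
  have e2 : tev (pderiv (some (some none)) (F5 φ a n α)) = sev (pderiv (some none) φ) := by
    unfold F5
    rw [map_add, pderiv_embY_w, Derivation.leibniz, Derivation.leibniz_pow, q1, Derivation.leibniz,
      Derivation.leibniz, Derivation.leibniz_pow, Derivation.leibniz_pow, q2, q3, pderiv_C]
    simp only [smul_zero, smul_eq_mul, add_zero, mul_zero, map_add, tev_embY]
  change tev _ - X (some (some i)) * tev _ = _
  rw [e1, e2]

/-! ### the two sheets -/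

/-- weights `2 q + 1, 1, 2` -/
def W1 (τ : Type) (q : ℕ) : Option (Option τ) → ℕ := fun o => o.elim (2 * q + 1) fun o => o.elim 1 fun _ => 2

/-- weights `2, 1, 1` -/
def W2 (τ : Type) : Option (Option τ) → ℕ := fun o => o.elim 2 fun _ => 1

/-- `φ(0; -y²/2, x)` -/
def sev1 : MvPolynomial (Option (Option τ)) ℂ →ₐ[ℂ] MvPolynomial (Option (Option τ)) ℂ :=
  aeval fun o => o.elim 0 fun o => o.elim (C (-(1 / 2)) * X (some none) ^ 2) fun k => X (some (some k))

/-- `φ(T; 0, x)` -/
def sev2 : MvPolynomial (Option (Option τ)) ℂ →ₐ[ℂ] MvPolynomial (Option (Option τ)) ℂ :=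
  aeval fun o => o.elim (X none) fun o => o.elim 0 fun k => X (some (some k))

omit [DecidableEq τ] in
theorem wq_eq : wq (Option τ) = C (-(1 / 2)) * X (some none) ^ 2 +
    (X none - C (1 / 2) * ∑ i : τ, X (some (some i)) ^ 2) := by
  unfold wq
  rw [Fintype.sum_option, C_neg]
  ring

omit [DecidableEq τ] in
theorem lead_wq1 {q : ℕ} (hq : 1 ≤ q) : Lead (W1 τ q) 2 (wq (Option τ)) (C (-(1 / 2)) * X (some none) ^ 2) := by
  rw [wq_eq]
  refine Lead.add_hi ?_ ?_
  · have h1 := (Lead.X (W1 τ q) (some none)).pow 2
    have h2 := h1.C_mul (-(1 / 2))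
    exact h2.cast (by simp [W1])
  · refine wlo_sub ?_ ?_
    · exact wlo_mono (by simp only [W1, Option.elim]; omega) (wh_X (W1 τ q) none).wlo
    · refine wlo_C_mul _ (wlo_sum _ fun i _ => ?_)
      exact wlo_mono (by simp only [W1, Option.elim]; omega) (wh_pow (wh_X (W1 τ q) (some (some i))) 2).wlo

omit [DecidableEq τ] in
theorem wh_wq2 : wh (W2 τ) 2 (wq (Option τ)) := by
  unfold wq
  refine wh_sub (wh_X (W2 τ) none) (wh_C_mul _ (wh_sum _ fun i _ => ?_))
  exact wh_pow (wh_X (W2 τ) (some i)) 2

omit [DecidableEq τ] in
/-- doubling the weights -/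
theorem wh_double {φ : MvPolynomial (Option (Option τ)) ℂ} {m : ℕ} (h : wh (vw τ) m φ) :
    wh (fun o => 2 * vw τ o) (2 * m) φ := by
  intro α hα
  have h1 := h α hα
  unfold wd at h1 ⊢
  rw [← h1, Finset.mul_sum]
  exact Finset.sum_congr rfl fun i _ => by ring

omit [DecidableEq τ] in
theorem lead_sev1 {q m : ℕ} (hq : 2 ≤ q) {φ : MvPolynomial (Option (Option τ)) ℂ} (h : wh (vw τ) m φ) :
    Lead (W1 τ q) (2 * m) (sev φ) (sev1 φ) := by
  unfold sev sev1
  refine Lead.aeval (v := fun o => 2 * vw τ o) (fun o => ?_) (Lead.self (wh_double h).wlo)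
  rcases o with _ | _ | k
  · refine Lead.zero ?_
    exact wlo_mono (by simp only [W1, vw, Option.elim]; omega) (wh_X (W1 τ q) none).wlo
  · exact lead_wq1 (by omega)
  · exact Lead.X (W1 τ q) (some (some k))

omit [DecidableEq τ] in
theorem wh_sev1 {q m : ℕ} {φ : MvPolynomial (Option (Option τ)) ℂ} (h : wh (vw τ) m φ) :
    wh (W1 τ q) (2 * m) (sev1 φ) := by
  unfold sev1
  refine wh_aeval (v := fun o => 2 * vw τ o) (fun o => ?_) (wh_double h)
  rcases o with _ | _ | k
  · exact wh_zero _ _
  · have h1 := wh_C_mul (-(1 / 2)) (wh_pow (wh_X (W1 τ q) (some none)) 2)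
    simpa [W1, vw] using h1
  · exact wh_X (W1 τ q) (some (some k))

omit [DecidableEq τ] in
theorem lead_sev2 {m : ℕ} {φ : MvPolynomial (Option (Option τ)) ℂ} (h : wh (vw τ) m φ) :
    Lead (W2 τ) m (sev φ) (sev2 φ) := by
  unfold sev sev2
  refine Lead.aeval (v := vw τ) (fun o => ?_) (Lead.self h.wlo)
  rcases o with _ | _ | k
  · exact Lead.X (W2 τ) none
  · exact Lead.zero wh_wq2.wlo
  · exact Lead.X (W2 τ) (some (some k))

omit [DecidableEq τ] in
theorem wh_sev2 {m : ℕ} {φ : MvPolynomial (Option (Option τ)) ℂ} (h : wh (vw τ) m φ) :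
    wh (W2 τ) m (sev2 φ) := by
  unfold sev2
  refine wh_aeval (v := vw τ) (fun o => ?_) h
  rcases o with _ | _ | k
  · exact wh_X (W2 τ) none
  · exact wh_zero _ _
  · exact wh_X (W2 τ) (some (some k))

omit [Fintype τ] [DecidableEq τ] in
theorem eval_sev1 (p : Option (Option τ) → ℂ) (φ : MvPolynomial (Option (Option τ)) ℂ) :
    eval p (sev1 φ) = eval (fun o : Option (Option τ) => o.elim 0 fun o => o.elim (-(1 / 2) * p (some none) ^ 2)
      fun k => p (some (some k))) φ := by
  unfold sev1
  induction φ using MvPolynomial.induction_on with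
  | C a => simp
  | add p q hp hq => rw [map_add, map_add, hp, hq, map_add]
  | mul_X p' o hp =>
    rw [map_mul, map_mul, hp, map_mul, aeval_X, eval_X]
    congr 1
    rcases o with _ | _ | i <;> simp

omit [Fintype τ] [DecidableEq τ] in
theorem eval_sev2 (p : Option (Option τ) → ℂ) (φ : MvPolynomial (Option (Option τ)) ℂ) :
    eval p (sev2 φ) = eval (fun o : Option (Option τ) => o.elim (p none) fun o => o.elim 0
      fun k => p (some (some k))) φ := by
  unfold sev2
  induction φ using MvPolynomial.induction_on with
  | C a => simp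
  | add p q hp hq => rw [map_add, map_add, hp, hq, map_add]
  | mul_X p' o hp =>
    rw [map_mul, map_mul, hp, map_mul, aeval_X, eval_X]
    congr 1
    rcases o with _ | _ | i <;> simp

/-- the second sheet, with a free first equation -/
def G5 (φ : MvPolynomial (Option (Option τ)) ℂ) (n : ℕ) (α : ℂ) (z : MvPolynomial (Option (Option τ)) ℂ) :
    Option (Option τ) → MvPolynomial (Option (Option τ)) ℂ
  | none => z
  | some none => C (2 * α) * X none ^ n - sev (pderiv (some none) φ)
  | some (some i) => sev (pderiv (some (some i)) φ) - X (some (some i)) * sev (pderiv (some none) φ)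

theorem mulAt_G5_T {q E₀ : ℕ} (hq : 2 ≤ q) (hφ : St τ q E₀ φ) (hn : 1 ≤ n) :
    mulAt (Ideal.span (Set.range (G5 φ n α (X none ^ n)))) 0 = 2 * n * q * q ^ Fintype.card τ := by
  have hw : wh (vw τ) q (pderiv (some none) φ) := wh_pderiv hφ.wh _ _ rfl
  have hx : ∀ i, wh (vw τ) q (pderiv (some (some i)) φ) := fun i => wh_pderiv hφ.wh _ _ rfl
  have h := wBez (w := W1 τ q) (d := fun o => o.elim ((2 * q + 1) * n) fun _ => 2 * q)
    (f := G5 φ n α (X none ^ n))
    (g := fun o => o.elim (X none ^ n) fun o => o.elim (- sev1 (pderiv (some none) φ))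
      fun i => sev1 (pderiv (some (some i)) φ))
    (by intro o; rcases o with _ | _ | i <;> simp [W1])
    (by intro o; rcases o with _ | o
        · simp only [Option.elim]; positivity
        · simp only [Option.elim]; omega)
    (by
      intro o
      rcases o with _ | _ | i
      · exact wh_pow (wh_X (W1 τ q) none) n
      · exact wh_neg (wh_sev1 hw)
      · exact wh_sev1 (hx i))
    (by
      intro p hp
      have h1 : p none = 0 := by
        have := hp none
        simp only [Option.elim, map_pow, eval_X] at this
        exact pow_eq_zero_iff (by omega) |>.mp this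
      have h2 := hp (some none)
      simp only [Option.elim, map_neg, neg_eq_zero] at h2
      rw [eval_sev1] at h2
      have h3 : ∀ i : τ, _ := fun i => hp (some (some i))
      simp only [Option.elim] at h3
      have h4 := hφ.nd (fun o : Option (Option τ) => o.elim 0 fun o => o.elim (-(1 / 2) * p (some none) ^ 2)
        fun k => p (some (some k))) rfl (by
          intro v
          rcases v with _ | i
          · exact h2
          · have := h3 i
            rwa [eval_sev1] at this)
      have h5 : p (some none) = 0 := by
        have := congrFun h4 (some none)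
        simp only [Option.elim, Pi.zero_apply] at this
        have h6 : p (some none) ^ 2 = 0 := by
          have h7 : (-(1 / 2) : ℂ) ≠ 0 := by norm_num
          exact (mul_eq_zero.mp this).resolve_left h7
        exact pow_eq_zero_iff (by norm_num) |>.mp h6
      funext o
      rcases o with _ | _ | i
      · exact h1
      · exact h5
      · exact congrFun h4 (some (some i)))
    (by
      intro o
      rcases o with _ | _ | i
      · exact (Lead.X (W1 τ q) none).pow n
      · change Lead _ _ (C (2 * α) * X none ^ n - sev (pderiv (some none) φ)) (- sev1 (pderiv (some none) φ))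
        have h1 := (lead_sev1 hq hw).neg
        have h2 : wlo (W1 τ q) (2 * q + 1) (C (2 * α) * X none ^ n) := by
          refine wlo_C_mul _ (wlo_mono ?_ (wh_pow (wh_X (W1 τ q) none) n).wlo)
          simp only [W1, Option.elim]
          nlinarith
        have h3 := h1.add_hi h2
        rw [neg_add_eq_sub] at h3
        exact h3
      · change Lead _ _ (sev (pderiv (some (some i)) φ) - X (some (some i)) * sev (pderiv (some none) φ))
          (sev1 (pderiv (some (some i)) φ))
        have h1 := lead_sev1 hq (hx i)
        have h2 : wlo (W1 τ q) (2 * q + 1) (-(X (some (some i)) * sev (pderiv (some none) φ))) := by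
          refine wlo_neg (wlo_mono ?_ (wlo_mul (wh_X (W1 τ q) (some (some i))).wlo (lead_sev1 hq hw).lof))
          simp only [W1, Option.elim]
          omega
        have h3 := h1.add_hi h2
        rw [← sub_eq_add_neg] at h3
        exact h3)
  rw [Fintype.prod_option, Fintype.prod_option, Fintype.prod_option, Fintype.prod_option] at h
  simp only [W1, Option.elim, Finset.prod_const, Finset.card_univ, one_mul] at h
  rw [mul_pow] at h
  have h2 : 0 < 2 ^ Fintype.card τ := by positivity
  have h3 : mulAt (Ideal.span (Set.range (G5 φ n α (X none ^ n)))) 0 * ((2 * q + 1) * 2 ^ Fintype.card τ) =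
      (2 * n * q * q ^ Fintype.card τ) * ((2 * q + 1) * 2 ^ Fintype.card τ) := by
    rw [h]
    ring
  exact Nat.eq_of_mul_eq_mul_right (by positivity) h3

theorem mulAt_G5_K {q E₀ : ℕ} (hφ : St τ q E₀ φ) (hn : 1 ≤ n) (hnq : 2 * n + 1 ≤ q) (hα : α ≠ 0) :
    mulAt (Ideal.span (Set.range (G5 φ n α
      (C (α * a) * X (some none) ^ 2 - C (2 * α) * wq (Option τ))))) 0 = 2 * n * q ^ Fintype.card τ := by
  have hw : wh (vw τ) q (pderiv (some none) φ) := wh_pderiv hφ.wh _ _ rfl
  have hx : ∀ i, wh (vw τ) q (pderiv (some (some i)) φ) := fun i => wh_pderiv hφ.wh _ _ rfl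
  have hK : wh (W2 τ) 2 (C (α * a) * X (some none) ^ 2 - C (2 * α) * wq (Option τ)) :=
    wh_sub (wh_C_mul _ (wh_pow (wh_X (W2 τ) (some none)) 2)) (wh_C_mul _ wh_wq2)
  have h := wBez (w := W2 τ) (d := fun o => o.elim 2 fun o => o.elim (2 * n) fun _ => q)
    (f := G5 φ n α (C (α * a) * X (some none) ^ 2 - C (2 * α) * wq (Option τ)))
    (g := fun o => o.elim (C (α * a) * X (some none) ^ 2 - C (2 * α) * wq (Option τ))
      fun o => o.elim (C (2 * α) * X none ^ n) fun i => sev2 (pderiv (some (some i)) φ))
    (by intro o; rcases o with _ | o <;> simp [W2])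
    (by intro o; rcases o with _ | _ | i
        · exact two_pos
        · simp only [Option.elim]; omega
        · simp only [Option.elim]; omega)
    (by
      intro o
      rcases o with _ | _ | i
      · exact hK
      · exact wh_C_mul _ (wh_pow (wh_X (W2 τ) none) n)
      · exact wh_sev2 (hx i))
    (by
      intro p hp
      have h1 : p none = 0 := by
        have := hp (some none)
        simp only [Option.elim, map_mul, map_pow, eval_X, eval_C] at this
        have h2 : (2 * α : ℂ) ≠ 0 := mul_ne_zero two_ne_zero hα
        exact pow_eq_zero_iff (by omega) |>.mp ((mul_eq_zero.mp this).resolve_left h2)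
      have h3 : ∀ i : τ, _ := fun i => hp (some (some i))
      simp only [Option.elim] at h3
      have h4 := hφ.ndx (fun o : Option (Option τ) => o.elim (p none) fun o => o.elim 0
        fun k => p (some (some k))) h1 rfl (by
          intro i
          have := h3 i
          rwa [eval_sev2] at this)
      have h5 : ∀ i : τ, p (some (some i)) = 0 := fun i => congrFun h4 (some (some i))
      have h6 : p (some none) = 0 := by
        have := hp none
        simp only [Option.elim] at this
        rw [wq_eq] at this
        simp only [map_sub, map_mul, map_add, map_pow, eval_C, eval_X, map_sum, h1, h5] at this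
        have h7 : (α * (a + 1)) * p (some none) ^ 2 = 0 := by
          rw [← this]
          simp
          ring
        have h8 : (α * (a + 1) : ℂ) ≠ 0 := mul_ne_zero hα (by exact_mod_cast Nat.succ_ne_zero a)
        exact pow_eq_zero_iff (by norm_num) |>.mp ((mul_eq_zero.mp h7).resolve_left h8)
      funext o
      rcases o with _ | _ | i
      · exact h1
      · exact h6
      · exact h5 i)
    (by
      intro o
      rcases o with _ | _ | i
      · exact Lead.self hK.wlo
      · change Lead _ _ (C (2 * α) * X none ^ n - sev (pderiv (some none) φ)) (C (2 * α) * X none ^ n)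
        have h1 := ((Lead.X (W2 τ) none).pow n).C_mul (2 * α)
        have h2 : wlo (W2 τ) (2 * n + 1) (-(sev (pderiv (some none) φ))) :=
          wlo_neg (wlo_mono hnq (lead_sev2 hw).lof)
        have h3 := h1.add_hi h2
        rw [← sub_eq_add_neg] at h3
        exact h3
      · change Lead _ _ (sev (pderiv (some (some i)) φ) - X (some (some i)) * sev (pderiv (some none) φ))
          (sev2 (pderiv (some (some i)) φ))
        have h1 := lead_sev2 (hx i)
        have h2 : wlo (W2 τ) (q + 1) (-(X (some (some i)) * sev (pderiv (some none) φ))) := by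
          refine wlo_neg (wlo_mono ?_ (wlo_mul (wh_X (W2 τ) (some (some i))).wlo (lead_sev2 hw).lof))
          simp only [W2, Option.elim]
          omega
        have h3 := h1.add_hi h2
        rw [← sub_eq_add_neg] at h3
        exact h3)
  rw [Fintype.prod_option, Fintype.prod_option, Fintype.prod_option, Fintype.prod_option] at h
  simp only [W2, Option.elim, Finset.prod_const, Finset.card_univ, one_mul, one_pow, mul_one] at h
  have h3 : mulAt (Ideal.span (Set.range (G5 φ n α
      (C (α * a) * X (some none) ^ 2 - C (2 * α) * wq (Option τ))))) 0 * 2 =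
      (2 * n * q ^ Fintype.card τ) * 2 := by
    rw [h]
    ring
  exact Nat.eq_of_mul_eq_mul_right two_pos h3

/-- the second sheet of the step -/
theorem mulAt_G5 {q E₀ : ℕ} (hq : 2 ≤ q) (hφ : St τ q E₀ φ) (hn : 1 ≤ n) (hnq : 2 * n + 1 ≤ q) (hα : α ≠ 0) :
    mulAt (Ideal.span (Set.range (G5 φ n α (C (α * a) * (X none ^ n * X (some none) ^ 2) -
      wq (Option τ) * sev (pderiv (some none) φ))))) 0 = n * (2 * q + 2) * q ^ Fintype.card τ := by
  set K := (C (α * a) * X (some none) ^ 2 - C (2 * α) * wq (Option τ) : MvPolynomial (Option (Option τ)) ℂ) with hK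
  have e1 : Ideal.span (Set.range (G5 φ n α (C (α * a) * (X none ^ n * X (some none) ^ 2) -
      wq (Option τ) * sev (pderiv (some none) φ)))) = Ideal.span (Set.range (G5 φ n α (X none ^ n * K))) := by
    have key : (C (α * a) * (X none ^ n * X (some none) ^ 2) - wq (Option τ) * sev (pderiv (some none) φ) :
        MvPolynomial (Option (Option τ)) ℂ) = X none ^ n * K +
        wq (Option τ) * (C (2 * α) * X none ^ n - sev (pderiv (some none) φ)) := by
      rw [hK]
      ring
    apply le_antisymm
    · rw [Ideal.span_le]
      rintro _ ⟨o, rfl⟩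
      rcases o with _ | o
      · change _ - _ ∈ _
        rw [key]
        refine Ideal.add_mem _ (Ideal.subset_span ⟨none, rfl⟩) (Ideal.mul_mem_left _ _ ?_)
        exact Ideal.subset_span ⟨some none, rfl⟩
      · exact Ideal.subset_span ⟨some o, by rcases o with _ | i <;> rfl⟩
    · rw [Ideal.span_le]
      rintro _ ⟨o, rfl⟩
      rcases o with _ | o
      · change X none ^ n * K ∈ _
        have key' : X none ^ n * K = (C (α * a) * (X none ^ n * X (some none) ^ 2) -
            wq (Option τ) * sev (pderiv (some none) φ) : MvPolynomial (Option (Option τ)) ℂ) -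
            wq (Option τ) * (C (2 * α) * X none ^ n - sev (pderiv (some none) φ)) := by
          rw [key]; ring
        rw [key']
        refine Ideal.sub_mem _ (Ideal.subset_span ⟨none, rfl⟩) (Ideal.mul_mem_left _ _ ?_)
        exact Ideal.subset_span ⟨some none, rfl⟩
      · exact Ideal.subset_span ⟨some o, by rcases o with _ | i <;> rfl⟩
  have hup : ∀ z z' : MvPolynomial (Option (Option τ)) ℂ, Function.update (G5 φ n α z) none z' = G5 φ n α z' := by
    intro z z'
    funext o
    rcases o with _ | _ | i
    · rw [Function.update_self]; rfl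
    · rw [Function.update_of_ne (by simp)]; rfl
    · rw [Function.update_of_ne (by simp)]; rfl
  have h1 := mulAt_G5_T φ n α hq hφ hn
  have h2 := mulAt_G5_K φ a n α hφ hn hnq hα
  have hQ : 0 < q ^ Fintype.card τ := by positivity
  have h3 := cmAdd (G5 φ n α 0) none (X none ^ n) K (by
    rw [hup, h1]
    have : 0 < 2 * n * q * q ^ Fintype.card τ := by positivity
    omega) (by
    rw [hup, h2]
    have : 0 < 2 * n * q ^ Fintype.card τ := by positivity
    omega)
  rw [hup, hup, hup, h1, h2] at h3
  rw [e1, h3]
  ring

/-- **the step `α u^a Q^n y²`, `a = q - 1 - 2 n`** -/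
theorem t5_mult {q E₀ : ℕ} (hq : 2 ≤ q) (hφ : St τ q E₀ φ) (hn : 1 ≤ n) (hnq : 2 * n + 1 ≤ q) (hα : α ≠ 0)
    (hA : mulAt (affIdeal (formC φ) (gram τ) (some none)) 0 ≠ 0) :
    mulAt (affIdeal (subN (qf (Option τ)) (F5 φ a n α)) (gram (Option τ)) (some none)) 0 =
      mulAt (affIdeal (formC φ) (gram τ) (some none)) 0 + n * (2 * q + 2) * q ^ Fintype.card τ := by
  rw [mulAt_T]
  have hG : Function.update (tSys (F5 φ a n α)) (some none) (C (2 * α) * X none ^ n - sev (pderiv (some none) φ)) =
      G5 φ n α (C (α * a) * (X none ^ n * X (some none) ^ 2) - wq (Option τ) * sev (pderiv (some none) φ)) := by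
    funext o
    rcases o with _ | _ | i
    · rw [Function.update_of_ne (by simp), tSys_F5_none]
      rfl
    · rw [Function.update_self]
      rfl
    · rw [Function.update_of_ne (by simp), tSys_F5_x]
      rfl
  have h5 := mulAt_G5 φ a n α hq hφ hn hnq hα
  have h6 := splitY φ (tSys (F5 φ a n α)) (C (2 * α) * X none ^ n - sev (pderiv (some none) φ))
    (tSys_F5_y φ a n α)
    (by
      rw [tSys_F5_none, tSys_embC_none]
      simp only [map_sub, map_mul, map_pow, y0_y, y0_wq, y0_sev]
      simp)
    (by
      intro i
      rw [tSys_F5_x, tSys_embC_some, map_sub, map_mul, y0_x, y0_sev, y0_sev])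
    hA
    (by
      rw [hG, h5]
      have hQ : 0 < q ^ Fintype.card τ := by positivity
      have : 0 < n * (2 * q + 2) * q ^ Fintype.card τ := by positivity
      omega)
  rw [h6, hG, h5]

end

end EY
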