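import Pool.Agent.helper5.EY.St
import Pool.Agent.helper40.EY.WBez

set_option autoImplicit false

/-!
# M9 of the blueprint of MP_3fe32a: `Rz q 1 1` and `Rz q 2 m` for `1 ≤ m ≤ q + 1`
-/

namespace EY

open MvPolynomial LinearAlgebra.Projectivization

section

variable {κ' : Type} [Fintype κ'] [DecidableEq κ']

/-- the equations of the eigenscheme at a non-isotropic point -/
theorem aff_one (f : MvPolynomial (Option κ') ℂ) : affIdeal f 1 none =
    Ideal.span (Set.range fun k : κ' => dehom (pderiv (some k) f) - X k * dehom (pderiv none f)) := by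
  have hsl : ∀ j : Option κ', sl (1 : Matrix (Option κ') (Option κ') ℂ) j = X j := by
    intro j
    unfold sl
    rw [Finset.sum_eq_single j]
    · simp
    · intro b _ hb
      rw [Matrix.one_apply_ne (Ne.symm hb), C_0, zero_mul]
    · intro h
      exact absurd (Finset.mem_univ _) h
  apply le_antisymm
  · unfold affIdeal
    rw [Ideal.span_le]
    rintro g ⟨j, rfl⟩
    rcases j with _ | k
    · simp [hsl, dehom_X_none]
    · refine Ideal.subset_span ⟨k, ?_⟩
      simp [hsl, dehom_X_some]
  · rw [Ideal.span_le]
    rintro g ⟨k, rfl⟩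
    refine Ideal.subset_span ⟨some k, ?_⟩
    simp [hsl, dehom_X_some]

end

theorem rz_one (q : ℕ) : Rz q 1 1 := by
  have h1 : affIdeal (0 : MvPolynomial (Option Empty) ℂ) 1 none =
      Ideal.span (Set.range (Empty.elim : Empty → MvPolynomial Empty ℂ)) := by
    rw [aff_one]
    congr 1
    ext g
    constructor
    · rintro ⟨k, _⟩
      exact k.elim
    · rintro ⟨k, _⟩
      exact k.elim
  have h2 : mulAt (affIdeal (0 : MvPolynomial (Option Empty) ℂ) 1 none) 0 = 1 := by
    have := wBez (σ := Empty) (w := Empty.elim) (d := Empty.elim) (f := Empty.elim) (g := Empty.elim)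
      (fun i => i.elim) (fun i => i.elim) (fun i => i.elim) (fun x _ => Subsingleton.elim _ _)
      (fun i => i.elim)
    rw [h1]
    simpa using this
  obtain ⟨f', h3, h4, l, v, h5, h6, h7⟩ := transfer (κ' := Empty) (N := 1) (d := q + 1) (by simp)
    (0 : MvPolynomial (Option Empty) ℂ) (isHomogeneous_zero _ _ _) 1 (Matrix.isSymm_one) (by simp) none
    (by intro j; rcases j with _ | j; · simp
        · exact j.elim) 0
    (by
      intro g hg
      rw [aff_one] at hg
      have : g ∈ (⊥ : Ideal (MvPolynomial Empty ℂ)) := by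
        have h8 : Ideal.span (Set.range fun k : Empty => dehom (pderiv (some k) (0 : MvPolynomial (Option Empty) ℂ)) -
            X k * dehom (pderiv none (0 : MvPolynomial (Option Empty) ℂ))) = ⊥ := by
          rw [Ideal.span_eq_bot]
          rintro x ⟨k, _⟩
          exact k.elim
        rw [← h8]
        exact hg
      rw [Ideal.mem_bot] at this
      rw [this, map_zero]) (Set.toFinite _)
    ⟨{0}, Set.finite_singleton _, fun x hx _ => ⟨0, rfl, 0, by
      funext j
      rcases j with _ | j
      · simpa using hx
      · exact j.elim⟩⟩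
  exact ⟨f', h3, h4, l, v, h5, h6, h7.trans h2⟩

theorem rz_two_low {q m : ℕ} (hm : 1 ≤ m) (hmq : m ≤ q) : Rz q 2 m := by
  set f : MvPolynomial (Option Unit) ℂ := X none ^ (q - m) * X (some ()) ^ (m + 1) with hf
  set F : Unit → MvPolynomial Unit ℂ := fun _ => C (m + 1 : ℂ) * X () ^ m - C ((q - m : ℕ) : ℂ) * X () ^ (m + 2)
    with hF
  have h1 : affIdeal f 1 none = Ideal.span (Set.range F) := by
    rw [aff_one]
    congr 2
    funext k
    have p1 : pderiv (some k) (X none : MvPolynomial (Option Unit) ℂ) = 0 := pderiv_X_of_ne (by simp)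
    have p2 : pderiv (some k) (X (some ()) : MvPolynomial (Option Unit) ℂ) = 1 := pderiv_X_self _
    have p3 : pderiv none (X none : MvPolynomial (Option Unit) ℂ) = 1 := pderiv_X_self _
    have p4 : pderiv none (X (some ()) : MvPolynomial (Option Unit) ℂ) = 0 := pderiv_X_of_ne (by simp)
    have e1 : pderiv (some k) f = X none ^ (q - m) * (C (m + 1 : ℂ) * X (some ()) ^ m) := by
      rw [hf, Derivation.leibniz, Derivation.leibniz_pow, Derivation.leibniz_pow, p1, p2]
      simp
    have e2 : pderiv none f = C ((q - m : ℕ) : ℂ) * X none ^ (q - m - 1) * X (some ()) ^ (m + 1) := by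
      rw [hf, Derivation.leibniz, Derivation.leibniz_pow, Derivation.leibniz_pow, p3, p4]
      simp
      ring
    rw [e1, e2, hF]
    simp only [map_mul, map_pow, dehom_X_none, dehom_X_some, one_pow, one_mul]
    have e3 : ∀ c : ℂ, dehom (κ' := Unit) (C c) = C c := fun c => by
      simp [dehom]
    rw [e3, e3]
    ring
  have h2 : mulAt (affIdeal f 1 none) 0 = m := by
    have := wBez (σ := Unit) (w := fun _ => 1) (d := fun _ => m) (f := F)
      (g := fun _ => C (m + 1 : ℂ) * X () ^ m)
      (fun _ => one_pos) (fun _ => hm) (fun _ => by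
        have := wh_C_mul (m + 1 : ℂ) (wh_pow (wh_X (fun _ : Unit => 1) ()) m)
        simpa using this)
      (fun x hx => by
        have h3 := hx ()
        rw [map_mul, eval_C, map_pow, eval_X] at h3
        have h4 : (m + 1 : ℂ) ≠ 0 := by exact_mod_cast Nat.succ_ne_zero m
        have h5 : x () = 0 := by
          have := (mul_eq_zero.mp h3).resolve_left h4
          exact pow_eq_zero_iff (by omega) |>.mp this
        funext u
        exact h5)
      (fun _ => by
        refine ⟨?_, ?_⟩
        · have := (wh_C_mul (m + 1 : ℂ) (wh_pow (wh_X (fun _ : Unit => 1) ()) m)).wlo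
          simpa using this
        · have e : F () - C (m + 1 : ℂ) * X () ^ m = C (-((q - m : ℕ) : ℂ)) * X () ^ (m + 2) := by
            rw [hF]
            simp only [map_neg]
            ring
          have h6 := (wh_C_mul (-((q - m : ℕ) : ℂ)) (wh_pow (wh_X (fun _ : Unit => 1) ()) (m + 2))).wlo
          rw [e]
          refine wlo_mono ?_ (by simpa using h6)
          omega)
    rw [h1]
    simpa using this
  have hev : ∀ x : Unit → ℂ, (∀ g ∈ affIdeal f 1 none, eval x g = 0) ↔ eval x (F ()) = 0 := by
    intro x
    rw [h1]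
    constructor
    · intro h
      exact h _ (Ideal.subset_span ⟨(), rfl⟩)
    · intro h g hg
      have : Ideal.span (Set.range F) ≤ RingHom.ker (eval x) := by
        rw [Ideal.span_le]
        rintro g ⟨k, rfl⟩
        exact h
      exact this hg
  obtain ⟨f', h3, h4, l, v, h5, h6, h7⟩ := transfer (κ' := Unit) (N := 2) (d := q + 1) (by simp)
    f (by
      have := (isHomogeneous_X_pow (R := ℂ) (none : Option Unit) (q - m)).mul
        (isHomogeneous_X_pow (some ()) (m + 1))
      have e : q - m + (m + 1) = q + 1 := by omega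
      rw [e] at this
      exact this) 1 (Matrix.isSymm_one) (by simp) none
    (by intro j; rcases j with _ | j <;> simp) 0
    ((hev 0).mpr (by
      rw [hF]
      simp [show m ≠ 0 by omega]))
    (by
      have h8 : ({x : Unit → ℂ | ∀ g ∈ affIdeal f 1 none, eval x g = 0}) ⊆
          (fun z : ℂ => fun _ : Unit => z) '' ({0} ∪ {z : ℂ | z ^ 2 = (m + 1) / ((q - m : ℕ) : ℂ)}) := by
        intro x hx
        have h9 := (hev x).mp hx
        refine ⟨x (), ?_, rfl⟩
        rw [hF] at h9
        simp only [map_sub, map_mul, eval_C, map_pow, eval_X] at h9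
        have h10 : x () ^ m * ((m + 1) - ((q - m : ℕ) : ℂ) * x () ^ 2) = 0 := by
          rw [← h9]
          ring
        rcases mul_eq_zero.mp h10 with h | h
        · left
          exact pow_eq_zero_iff (by omega) |>.mp h
        · right
          have h4 : (m + 1 : ℂ) ≠ 0 := by exact_mod_cast Nat.succ_ne_zero m
          have h11 : ((q - m : ℕ) : ℂ) ≠ 0 := by
            intro h0
            rw [h0, zero_mul, sub_zero] at h
            exact h4 h
          change x () ^ 2 = _
          rw [eq_div_iff h11]
          linear_combination -h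
      refine (Set.Finite.image _ (Set.Finite.union (Set.finite_singleton _) ?_)).subset h8
      have h12 := (Polynomial.X ^ 2 - Polynomial.C ((m + 1) / ((q - m : ℕ) : ℂ)) : Polynomial ℂ).roots.toFinset.finite_toSet
      refine h12.subset ?_
      intro z hz
      rw [Finset.mem_coe, Multiset.mem_toFinset, Polynomial.mem_roots (Polynomial.X_pow_sub_C_ne_zero (by norm_num) _)]
      simp [Polynomial.IsRoot]
      rw [show z ^ 2 = _ from hz]
      ring)
    ⟨{fun o => o.elim 0 fun _ => 1}, Set.finite_singleton _, fun x hx _ => ⟨_, rfl, x (some ()), by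
      funext j
      rcases j with _ | j
      · simpa using hx
      · simp⟩⟩
  exact ⟨f', h3, h4, l, v, h5, h6, h7.trans h2⟩

theorem rz_two_top (q : ℕ) : Rz q 2 (q + 1) := by
  set f : MvPolynomial (Option Unit) ℂ := X (some ()) ^ (q + 1) with hf
  set S : Matrix (Option Unit) (Option Unit) ℂ := fun i j => if i = j then 0 else 1 with hS
  set F : Unit → MvPolynomial Unit ℂ := fun _ => C (-(q + 1 : ℂ)) * X () ^ (q + 1) with hF
  have p4 : pderiv none (X (some ()) : MvPolynomial (Option Unit) ℂ) = 0 := pderiv_X_of_ne (by simp)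
  have p3 : pderiv (some ()) (X (some ()) : MvPolynomial (Option Unit) ℂ) = 1 := pderiv_X_self _
  have s1 : sl S none = X (some ()) := by
    simp [sl, hS, Fintype.sum_option]
  have s2 : sl S (some ()) = X none := by
    simp [sl, hS, Fintype.sum_option]
  have e3 : ∀ c : ℂ, dehom (κ' := Unit) (C c) = C c := fun c => by
    simp [dehom]
  have g1 : dehom (pderiv none f - sl S none * pderiv (some ()) f) = F () := by
    have q1 : pderiv none f = 0 := by
      rw [hf, Derivation.leibniz_pow, p4]
      simp
    have q2 : pderiv (some ()) f = C (q + 1 : ℂ) * X (some ()) ^ q := by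
      rw [hf, Derivation.leibniz_pow, p3]
      simp
    rw [q1, q2, s1, hF]
    simp only [zero_sub, map_neg, map_mul, map_pow, dehom_X_some, e3]
    ring
  have g2 : dehom (pderiv (some ()) f - sl S (some ()) * pderiv (some ()) f) = 0 := by
    rw [s2, map_sub, map_mul, dehom_X_none, one_mul, sub_self]
  have h1 : affIdeal f S (some ()) = Ideal.span (Set.range F) := by
    apply le_antisymm
    · unfold affIdeal
      rw [Ideal.span_le]
      rintro g ⟨j, rfl⟩
      rcases j with _ | k
      · exact Ideal.subset_span ⟨(), g1.symm⟩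
      · change dehom (pderiv (some ()) f - sl S (some ()) * pderiv (some ()) f) ∈ _
        rw [g2]
        exact Ideal.zero_mem _
    · rw [Ideal.span_le]
      rintro g ⟨k, rfl⟩
      exact Ideal.subset_span ⟨none, g1⟩
  have hq : (-(q + 1 : ℂ)) ≠ 0 := by
    rw [neg_ne_zero]
    exact_mod_cast Nat.succ_ne_zero q
  have hwh : wh (fun _ : Unit => 1) (q + 1) (F ()) := by
    have := wh_C_mul (-(q + 1 : ℂ)) (wh_pow (wh_X (fun _ : Unit => 1) ()) (q + 1))
    rw [one_mul] at this
    exact this
  have hzero : ∀ x : Unit → ℂ, eval x (F ()) = 0 → x = 0 := by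
    intro x hx
    rw [hF, map_mul, eval_C, map_pow, eval_X] at hx
    have := (mul_eq_zero.mp hx).resolve_left hq
    funext u
    exact pow_eq_zero_iff (by omega) |>.mp this
  have h2 : mulAt (affIdeal f S (some ())) 0 = q + 1 := by
    have := wBez (σ := Unit) (w := fun _ => 1) (d := fun _ => q + 1) (f := F) (g := F)
      (fun _ => one_pos) (fun _ => Nat.succ_pos q) (fun _ => hwh) (fun x hx => hzero x (hx ()))
      (fun _ => Lead.self hwh.wlo)
    rw [h1]
    simpa using this
  have hev : ∀ x : Unit → ℂ, (∀ g ∈ affIdeal f S (some ()), eval x g = 0) ↔ eval x (F ()) = 0 := by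
    intro x
    rw [h1]
    constructor
    · intro h
      exact h _ (Ideal.subset_span ⟨(), rfl⟩)
    · intro h g hg
      have : Ideal.span (Set.range F) ≤ RingHom.ker (eval x) := by
        rw [Ideal.span_le]
        rintro g ⟨k, rfl⟩
        exact h
      exact this hg
  obtain ⟨f', h3, h4, l, v, h5, h6, h7⟩ := transfer (κ' := Unit) (N := 2) (d := q + 1) (by simp)
    f (isHomogeneous_X_pow _ _) S
    (by
      ext i j
      simp [hS, eq_comm])
    (by
      have hSS : S * S = 1 := by
        ext i j
        rcases i with _ | i <;> rcases j with _ | j <;>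
          simp [hS, Matrix.mul_apply, Fintype.sum_option]
      intro h0
      have := congrArg Matrix.det hSS
      rw [Matrix.det_mul, h0, zero_mul, Matrix.det_one] at this
      exact zero_ne_one this) (some ())
    (by intro j; rcases j with _ | j <;> simp [hS]) 0
    ((hev 0).mpr (by rw [hF]; simp))
    ((Set.finite_singleton (0 : Unit → ℂ)).subset fun x hx => hzero x ((hev x).mp hx))
    ⟨{fun o => o.elim 0 fun _ => 1}, Set.finite_singleton _, fun x hx _ => ⟨_, rfl, x (some ()), by
      funext j
      rcases j with _ | j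
      · simpa using hx
      · simp⟩⟩
  exact ⟨f', h3, h4, l, v, h5, h6, h7.trans h2⟩

/-- binary forms -/
theorem rz_two {q m : ℕ} (hm : 1 ≤ m) (hmq : m ≤ q + 1) : Rz q 2 m := by
  rcases Nat.lt_or_ge q m with h | h
  · have : m = q + 1 := by omega
    rw [this]
    exact rz_two_top q
  · exact rz_two_low hm h

end EY
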